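import Pool.Agent.W601.SM.Poly

/-!
The frame belonging to an arrangement of hyperplanes.
-/

set_option autoImplicit false

namespace Pool.Agent.W601.SM

open MvPolynomial Module

theorem exists_adapted {V : Type*} [AddCommGroup V] [Module ℂ V] [Module.Finite ℂ V] {q : ℕ}
    (ev : Fin q → V →ₗ[ℂ] ℂ) (hs : ∀ t : Fin q → ℂ, ∃ v, ∀ i, ev i v = t i)
    {ρ : Type*} [Fintype ρ] [DecidableEq ρ] (hρ : Fintype.card ρ = Module.finrank ℂ V) :
    ∃ (e : Basis ρ ℂ V) (col : Fin q → ρ), Function.Injective col ∧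
      ∀ i y, e.repr y (col i) = ev i y := by
  set T : V →ₗ[ℂ] (Fin q → ℂ) := LinearMap.pi ev with hT
  have hTs : LinearMap.range T = ⊤ := by
    rw [LinearMap.range_eq_top]
    intro t
    obtain ⟨v, hv⟩ := hs t
    exact ⟨v, funext hv⟩
  obtain ⟨s, hsT⟩ := T.exists_rightInverse_of_surjective hTs
  have hsT' : ∀ t, T (s t) = t := fun t => LinearMap.congr_fun hsT t
  set K := LinearMap.ker T with hK
  let E : V ≃ₗ[ℂ] (Fin q → ℂ) × K :=
    { toFun := fun y => (T y, ⟨y - s (T y), by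
        rw [hK, LinearMap.mem_ker, map_sub, hsT', sub_self]⟩)
      map_add' := fun y y' => by
        ext
        · simp
        · simp only [map_add, Prod.snd_add, Submodule.coe_add]
          abel
      map_smul' := fun c y => by
        ext
        · simp
        · simp only [map_smul, Prod.smul_snd, RingHom.id_apply, SetLike.val_smul, smul_sub]
      invFun := fun x => s x.1 + x.2.1
      left_inv := fun y => by simp
      right_inv := fun x => by
        have h1 : T x.2.1 = 0 := x.2.2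
        have h2 : T (s x.1 + x.2.1) = x.1 := by rw [map_add, hsT', h1, add_zero]
        apply Prod.ext
        · exact h2
        · apply Subtype.ext
          simp only
          rw [h2]
          abel }
  set b0 := ((Pi.basisFun ℂ (Fin q)).prod (Module.finBasis ℂ K)).map E.symm with hb0
  have hcard : Fintype.card (Fin q ⊕ Fin (Module.finrank ℂ K)) = Fintype.card ρ := by
    rw [hρ, Module.finrank_eq_card_basis b0]
  set eq := Fintype.equivOfCardEq hcard with heq
  refine ⟨b0.reindex eq, fun i => eq (Sum.inl i), fun i j h => ?_, fun i y => ?_⟩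
  · exact Sum.inl_injective (eq.injective h)
  · rw [Basis.repr_reindex_apply, Equiv.symm_apply_apply, hb0, Basis.map_repr]
    simp only [LinearEquiv.symm_symm, LinearEquiv.trans_apply]
    rw [Basis.prod_repr_inl]
    simp only [Pi.basisFun_repr]
    rfl

variable {n d q : ℕ}

/-- The points impose independent conditions on the forms of degree `k`. -/
def Ind (k : ℕ) {q : ℕ} (ℓ : Fin q → Fin (n + 1) → ℂ) : Prop :=
  ∀ i, ∃ P : MvPolynomial (Fin (n + 1)) ℂ, P.IsHomogeneous k ∧ eval (ℓ i) P ≠ 0 ∧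
    ∀ j, j ≠ i → eval (ℓ j) P = 0

theorem Ind.surj {k : ℕ} {ℓ : Fin q → Fin (n + 1) → ℂ} (h : Ind k ℓ) (t : Fin q → ℂ) :
    ∃ v : Rn n k, ∀ i, ev k (ℓ i) v = t i := by
  choose P hP h1 h2 using h
  refine ⟨∑ i, (t i / eval (ℓ i) (P i)) • ⟨P i, (mem_homogeneousSubmodule _ _).mpr (hP i)⟩,
    fun i => ?_⟩
  rw [map_sum, Finset.sum_eq_single i]
  · rw [map_smul, ev_apply, smul_eq_mul, div_mul_cancel₀ _ (h1 i)]
  · intro j _ hj
    rw [map_smul, ev_apply, h2 j i hj.symm, smul_zero]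
  · simp

theorem Ind.ne {k : ℕ} {ℓ : Fin q → Fin (n + 1) → ℂ} (h : Ind (k + 1) ℓ) (i : Fin q) : ℓ i ≠ 0 := by
  intro h0
  obtain ⟨P, hP, h1, _⟩ := h i
  apply h1
  rw [h0]
  have h3 : eval (0 : Fin (n + 1) → ℂ) P = constantCoeff P := by
    simp [← aeval_eq_eval]
  rw [h3, constantCoeff_eq]
  by_contra hc
  have := hP hc
  simp at this

theorem Ind.succ {k : ℕ} {ℓ : Fin q → Fin (n + 1) → ℂ} (h : Ind (k + 1) ℓ) : Ind (k + 2) ℓ := by
  intro i
  obtain ⟨P, hP, h1, h2⟩ := h i
  obtain ⟨j, hj⟩ : ∃ j, ℓ i j ≠ 0 := by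
    by_contra hc
    push Not at hc
    exact h.ne i (funext hc)
  refine ⟨P * X j, hP.mul (isHomogeneous_X ℂ j), ?_, fun j' hj' => ?_⟩
  · rw [map_mul, eval_X]
    exact mul_ne_zero h1 hj
  · rw [map_mul, h2 j' hj', zero_mul]

theorem Ind.span {ℓ : Fin q → Fin (n + 1) → ℂ} (h : Ind (d + 1) ℓ)
    (hq : Module.finrank ℂ (Rn n (d + 1)) - Module.finrank ℂ (Rn n d) < q)
    (w : Fin (n + 1) → ℂ) (hw : ∀ i, ll (ℓ i) w = 0) : w = 0 := by
  by_contra hw0
  set T : Rn n (d + 1) →ₗ[ℂ] (Fin q → ℂ) := LinearMap.pi fun i => ev (d + 1) (ℓ i) with hT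
  have hTs : LinearMap.range T = ⊤ := by
    rw [LinearMap.range_eq_top]
    intro t
    obtain ⟨v, hv⟩ := h.surj t
    exact ⟨v, funext hv⟩
  have h1 := LinearMap.finrank_range_add_finrank_ker T
  rw [hTs, finrank_top, Module.finrank_fin_fun] at h1
  have h2 : LinearMap.range (mulL (n := n) d w) ≤ LinearMap.ker T := by
    rintro _ ⟨P, rfl⟩
    rw [LinearMap.mem_ker]
    funext i
    have h3 := hw i
    rw [ll_apply] at h3
    simp only [hT, LinearMap.pi_apply, Pi.zero_apply]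
    rw [ev_apply, mulL_coe, map_mul, eval_lin, h3, zero_mul]
  have h3 := Submodule.finrank_mono h2
  rw [LinearMap.finrank_range_of_inj (mulL_inj hw0)] at h3
  omega

theorem finrank_diff (hn : 1 ≤ n) :
    Module.finrank ℂ (Rn n (d + 1)) - Module.finrank ℂ (Rn n d) = (n + d).choose (n - 1) ∧
      Module.finrank ℂ (Rn n d) ≤ Module.finrank ℂ (Rn n (d + 1)) := by
  obtain ⟨m, rfl⟩ : ∃ m, n = m + 1 := ⟨n - 1, by omega⟩
  rw [finrank_Rn, finrank_Rn]
  have h1 : (m + 1 + (d + 1)).choose (m + 1)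
      = (m + 1 + d).choose m + (m + 1 + d).choose (m + 1) := by
    rw [← add_assoc, Nat.choose_succ_succ]
  rw [h1]
  simp

theorem exists_frame (hn : 1 ≤ n) {ℓ : Fin q → Fin (n + 1) → ℂ} (h : Ind (d + 1) ℓ)
    (hq : (n + d).choose (n - 1) < q) :
    ∃ Q : Frame (n + 1) q (Rn n d) (Rn n (d + 1)) (Rn n (d + 2)),
      (∀ i, Q.ℓ i = ll (ℓ i)) ∧ Q.b = (n + d).choose (n - 1) := by
  obtain ⟨hD, hle⟩ := finrank_diff (n := n) (d := d) hn
  set a := Module.finrank ℂ (Rn n d) with ha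
  set b := (n + d).choose (n - 1) with hb
  set eL : Basis (Fin a) ℂ (Rn n d) := Module.finBasis ℂ (Rn n d) with heL
  have hX : Module.finrank ℂ (Rn n (d + 1)) = a + b := by omega
  set eX : Basis (Fin a ⊕ Fin b) ℂ (Rn n (d + 1)) :=
    (Module.finBasisOfFinrankEq ℂ (Rn n (d + 1)) hX).reindex finSumFinEquiv.symm with heX
  -- the dimension in the next degree
  have hY : Fintype.card ((Fin a ⊕ Fin b) ⊕ Fin b) ≤ Module.finrank ℂ (Rn n (d + 2)) := by
    have h0 : (Pi.single 0 1 : Fin (n + 1) → ℂ) ≠ 0 := by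
      intro h0
      have := congrFun h0 0
      simp at this
    obtain ⟨bb, hbb⟩ := (polySys n d).exists_b eL eX h0
    have hind : ∀ t : ℂ, (Pi.single (Fin.last n) 1 : Fin (n + 1) → ℂ) ≠ t • Pi.single 0 1 := by
      intro t ht
      have h1 := congrFun ht (Fin.last n)
      have h2 : Fin.last n ≠ 0 := by
        intro h3
        have := congrArg Fin.val h3
        simp at this
        omega
      rw [Pi.single_eq_same, Pi.smul_apply, Pi.single_eq_of_ne h2, smul_zero] at h1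
      exact one_ne_zero h1
    exact ((polySys n d).li_rows eL eX h0 hind hbb).fintype_card_le_finrank
  set c := Module.finrank ℂ (Rn n (d + 2)) - Fintype.card ((Fin a ⊕ Fin b) ⊕ Fin b) with hc
  have hρ : Fintype.card (Fin c ⊕ ((Fin a ⊕ Fin b) ⊕ Fin b)) = Module.finrank ℂ (Rn n (d + 2)) := by
    rw [Fintype.card_sum, Fintype.card_fin]
    omega
  obtain ⟨eY, col, hcol, hrep⟩ := exists_adapted (fun i => ev (d + 2) (ℓ i))
    (fun t => h.succ.surj t) hρ
  have hmul : ∀ (i : Fin q) (u : Fin (n + 1) → ℂ) (x : Rn n (d + 1)),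
      ev (d + 2) (ℓ i) ((polySys n d).mX u x) = ll (ℓ i) u * ev (d + 1) (ℓ i) x := by
    intro i u x
    have h1 : (polySys n d).mX u x = mulL (d + 1) u x := rfl
    rw [h1, ev_apply, ev_apply, mulL_coe, map_mul, eval_lin, ll_apply]
  exact ⟨Frame.mk (polySys n d) (fun i => ll (ℓ i)) (fun i => ev (d + 1) (ℓ i))
    (fun i => ev (d + 2) (ℓ i)) hmul a b c eL eX eY col hcol hrep h.surj
    (h.span (by rw [hD]; exact hq)), fun _ => rfl, rfl⟩

end Pool.Agent.W601.SM
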