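import Pool.Agent.W601.SM.Core
import Pool.Agent.W601.SM.Arr
import Pool.Agent.W602.TL.Proj

/-!
Projective varieties with a morphism to projective space. Such a variety is isomorphic to the
graph of the morphism, a closed subset of a product of two projective spaces; the morphism is the
second projection.
-/

set_option autoImplicit false

namespace Pool.Agent.W601.SM

open MvPolynomial Filter Topology

/-- polynomials in the homogeneous coordinates `u` and `v` of the two projective spaces -/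
abbrev BiPoly (N n : ℕ) : Type := MvPolynomial (Fin (N + 1) ⊕ Fin (n + 1)) ℂ

/-- value of a polynomial at `(u, v)` -/
noncomputable def ev2 {N n : ℕ} (u : Fin (N + 1) → ℂ) (v : Fin (n + 1) → ℂ)
    (P : BiPoly N n) : ℂ := eval (Sum.elim u v) P

/-- bihomogeneous polynomials -/
def BiHom {N n : ℕ} (P : BiPoly N n) : Prop :=
  ∃ a b : ℕ, ∀ (s t : ℂ) (u : Fin (N + 1) → ℂ) (v : Fin (n + 1) → ℂ),
    ev2 (s • u) (t • v) P = s ^ a * t ^ b * ev2 u v P

/-- closed subsets of the product of projective `N`-space and projective `n`-space -/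
structure BiSet (N n : ℕ) where
  /-- the equations -/
  I : Set (BiPoly N n)
  hom : ∀ P ∈ I, BiHom P

namespace BiSet

variable {N n : ℕ} (X : BiSet N n)

/-- the points, in homogeneous coordinates -/
def Mem (u : Fin (N + 1) → ℂ) (v : Fin (n + 1) → ℂ) : Prop :=
  u ≠ 0 ∧ v ≠ 0 ∧ ∀ P ∈ X.I, ev2 u v P = 0

/-- entire curves (nonconstant by definition), in homogeneous coordinates -/
structure EntireCurve (u : ℂ → Fin (N + 1) → ℂ) (v : ℂ → Fin (n + 1) → ℂ) : Prop where
  diffu : ∀ j, Differentiable ℂ fun z => u z j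
  diffv : ∀ j, Differentiable ℂ fun z => v z j
  mem : ∀ z, X.Mem (u z) (v z)
  nonconst : ∃ z z', (∀ t : ℂ, u z' ≠ t • u z) ∨ (∀ t : ℂ, v z' ≠ t • v z)

/-- germs of analytic arcs, in homogeneous coordinates -/
structure Arc (u : ℂ → Fin (N + 1) → ℂ) (v : ℂ → Fin (n + 1) → ℂ) : Prop where
  anu : ∀ j, AnalyticAt ℂ (fun z => u z j) 0
  anv : ∀ j, AnalyticAt ℂ (fun z => v z j) 0
  mem : ∀ᶠ z in 𝓝 0, X.Mem (u z) (v z)

/-- The projection to projective `n`-space is ramified over the hyperplanes `ℓ i` with mean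
multiplicity at least `μ`: if an arc in `X` meets the hyperplanes with the multiplicities `a i`,
the mean of the nonzero numbers among the `a i` is at least `μ`. -/
def MeanRamified {q : ℕ} (ℓ : Fin q → Fin (n + 1) → ℂ) (μ : ℝ) : Prop :=
  ∀ u v, X.Arc u v → ∀ a : Fin q → ℕ,
    (∀ i, analyticOrderAt (fun z => ∑ j, ℓ i j * v z j) 0 = a i) →
      μ * (Finset.univ.filter fun i => a i ≠ 0).card ≤ ∑ i, (a i : ℝ)

/-- `X` is irreducible -/
def Irred : Prop := (∃ u v, X.Mem u v) ∧ ∀ P Q : BiPoly N n, BiHom P → BiHom Q →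
  (∀ u v, X.Mem u v → ev2 u v (P * Q) = 0) →
    (∀ u v, X.Mem u v → ev2 u v P = 0) ∨ ∀ u v, X.Mem u v → ev2 u v Q = 0

/-- the projection to projective `n`-space has finite fibres over a nonempty open subset of the
image -/
def GenFinite : Prop := ∃ (D : MvPolynomial (Fin (n + 1)) ℂ) (e : ℕ), D.IsHomogeneous e ∧
  (∃ u v, X.Mem u v ∧ eval v D ≠ 0) ∧
  ∀ v, eval v D ≠ 0 → ∃ T : Finset (Fin (N + 1) → ℂ), ∀ u, X.Mem u v → ∃ t ∈ T, ∃ c : ℂ, u = c • t

/-- All entire curves lie in a proper closed subset. -/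
def PseudoBrody : Prop := ∃ G : BiPoly N n, BiHom G ∧ (∃ u v, X.Mem u v ∧ ev2 u v G ≠ 0) ∧
  ∀ u v, X.EntireCurve u v → ∀ z, ev2 (u z) (v z) G = 0

end BiSet

theorem exists_AB {μ : ℝ} {q D : ℕ} (hμ : 1 < μ) (h : 2 * D * μ < q * (μ - 1)) :
    ∃ A B : ℕ, B < A ∧ (A : ℝ) ≤ B * μ ∧ 2 * D * A + B * q < A * q := by
  have c2 : Continuous fun t : ℝ => q * (t - 1) - 2 * D * t := by fun_prop
  have e2 : ∀ᶠ t : ℝ in 𝓝 μ, 0 < q * (t - 1) - 2 * D * t :=
    c2.continuousAt.eventually (lt_mem_nhds (by linarith))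
  have e3 : ∀ᶠ t : ℝ in 𝓝 μ, 1 < t := lt_mem_nhds hμ
  obtain ⟨ε, hε, hb⟩ := Metric.eventually_nhds_iff.mp (e2.and e3)
  obtain ⟨r, hr1, hr2⟩ := exists_rat_btwn (show μ - ε < μ by linarith)
  obtain ⟨f2, f3⟩ := hb (y := (r : ℝ)) (by
    rw [Real.dist_eq, abs_lt]
    constructor <;> linarith)
  have hrpos : 0 < r := by
    have : (0 : ℝ) < r := by linarith
    exact_mod_cast this
  have hden : (0 : ℝ) < r.den := by exact_mod_cast r.den_pos
  obtain ⟨A, hA⟩ : ∃ A : ℕ, r.num = A := ⟨r.num.toNat, (Int.toNat_of_nonneg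
    (Rat.num_nonneg.mpr hrpos.le)).symm⟩
  have hrA : (r : ℝ) * r.den = A := by
    have h3 : (r : ℝ) = (r.num : ℝ) / (r.den : ℝ) := by
      exact_mod_cast (Rat.num_div_den r).symm
    rw [h3, div_mul_cancel₀ _ hden.ne', hA]
    simp
  have hBA : r.den < A := by
    have : (r.den : ℝ) < A := by rw [← hrA]; nlinarith
    exact_mod_cast this
  refine ⟨A, r.den, hBA, ?_, ?_⟩
  · rw [← hrA]
    nlinarith
  · have h3 : (2 * (D : ℝ) * A + r.den * q) < A * q := by
      rw [← hrA]
      nlinarith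
    exact_mod_cast h3

/-- The theorem for entire curves in projective space. -/
theorem curve_main {n q k : ℕ} {μ : ℝ} (hn : 1 ≤ n) {ℓ : Fin q → Fin (n + 1) → ℂ} (hI : Ind k ℓ)
    (hμ : 1 < μ) (hq : 2 * ((n + k - 1).choose (n - 1) : ℕ) * μ < q * (μ - 1))
    {v : ℂ → Fin (n + 1) → ℂ} (hv : ∀ j, Differentiable ℂ fun z => v z j) (hnz : ∀ z, v z ≠ 0)
    (hnc : ∃ z z', ∀ t : ℂ, v z' ≠ t • v z)
    (hM : ∀ z, ∀ a : Fin q → ℕ,
      (∀ i, analyticOrderAt (fun w => ∑ j, ℓ i j * v w j) z = a i) →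
      μ * (Finset.univ.filter fun i => a i ≠ 0).card ≤ ∑ i, (a i : ℝ)) :
    ∃ i, ∀ z, ∑ j, ℓ i j * v z j = 0 := by
  classical
  by_contra hcon
  push Not at hcon
  obtain ⟨A, B, hBA, hABμ, hnum⟩ := exists_AB hμ hq
  have hDpos : 0 < (n + k - 1).choose (n - 1) := Nat.choose_pos (by omega)
  have hq0 : 2 * (n + k - 1).choose (n - 1) < q := by
    by_contra hc
    push Not at hc
    have h1 : A * q ≤ 2 * (n + k - 1).choose (n - 1) * A := by
      rw [mul_comm A q]; exact Nat.mul_le_mul_right A hc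
    omega
  obtain ⟨p, rfl⟩ : ∃ p, q = p + 1 := ⟨q - 1, by omega⟩
  -- the degree is positive
  obtain ⟨d, rfl⟩ : ∃ d, k = d + 1 := by
    rcases Nat.eq_zero_or_pos k with h0 | h0
    · exfalso
      subst h0
      have hp1 : 1 ≤ p := by omega
      obtain ⟨P, hP, h1, h2⟩ := hI 0
      have h3 := h2 ⟨1, by omega⟩ (by
        intro h; have := congrArg Fin.val h; simp at this)
      have h4 : P.totalDegree = 0 := by
        rw [← Nat.le_zero]
        exact hP.totalDegree_le
      rw [totalDegree_eq_zero_iff_eq_C] at h4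
      rw [h4, eval_C] at h1 h3
      exact h1 h3
    · exact ⟨k - 1, by omega⟩
  have hnd : n + (d + 1) - 1 = n + d := by omega
  rw [hnd] at hDpos hq0 hnum
  obtain ⟨Q, hQℓ, hQb⟩ := exists_frame (d := d) hn hI (by omega)
  have hU : ∀ i, Q.U v i = fun w => ∑ j, ℓ i j * v w j := by
    intro i
    funext w
    unfold Frame.U
    rw [hQℓ, ll_apply]
  refine Q.no_curve (A := A) (B := B) hBA.le (by rw [hQb]; linarith [mul_comm B (p + 1)]) (F := v) hv hnz ?_ hnc ?_
  · intro i
    obtain ⟨z, hz⟩ := hcon i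
    exact ⟨z, by rw [hU]; exact hz⟩
  · intro z a ha
    have h1 := hM z a (fun i => by rw [← ha i, hU])
    set k : ℕ := (Finset.univ.filter fun i => a i ≠ 0).card with hk
    have h4 : (A : ℝ) * k ≤ B * ∑ i, (a i : ℝ) := by
      have hk0 : (0 : ℝ) ≤ k := Nat.cast_nonneg k
      have hB0 : (0 : ℝ) ≤ B := Nat.cast_nonneg B
      calc (A : ℝ) * k ≤ (B * μ) * k := mul_le_mul_of_nonneg_right hABμ hk0
        _ = B * (μ * k) := by ring
        _ ≤ B * ∑ i, (a i : ℝ) := mul_le_mul_of_nonneg_left h1 hB0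
    exact_mod_cast h4

theorem eval_smul_hom' {n e : ℕ} {R : MvPolynomial (Fin (n + 1)) ℂ} (hR : R.IsHomogeneous e)
    (t : ℂ) (x : Fin (n + 1) → ℂ) : eval (t • x) R = t ^ e * eval x R := by
  rw [eval_eq', eval_eq', Finset.mul_sum]
  refine Finset.sum_congr rfl fun m hm => ?_
  have hd : ∑ i, m i = e := by
    have h1 := hR (mem_support_iff.mp hm)
    rw [← h1, Finsupp.weight_apply, Finsupp.sum_fintype _ _ (by intro; simp)]
    simp
  simp only [Pi.smul_apply, smul_eq_mul, mul_pow, Finset.prod_mul_distrib]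
  rw [Finset.prod_pow_eq_pow_sum, hd]
  ring

theorem ev2_inr {N n : ℕ} (u : Fin (N + 1) → ℂ) (v : Fin (n + 1) → ℂ)
    (R : MvPolynomial (Fin (n + 1)) ℂ) : ev2 u v (rename Sum.inr R) = eval v R := by
  unfold ev2
  rw [eval_rename]
  rfl

theorem biHom_inr {N n e : ℕ} {R : MvPolynomial (Fin (n + 1)) ℂ} (hR : R.IsHomogeneous e) :
    BiHom (rename Sum.inr R : BiPoly N n) := by
  refine ⟨0, e, fun s t u v => ?_⟩
  rw [ev2_inr, ev2_inr, pow_zero, one_mul, eval_smul_hom' hR]

theorem ev2_mul {N n : ℕ} (u : Fin (N + 1) → ℂ) (v : Fin (n + 1) → ℂ) (P Q : BiPoly N n) :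
    ev2 u v (P * Q) = ev2 u v P * ev2 u v Q := map_mul _ _ _

/-- a product of functions which do not vanish identically on an irreducible set -/
theorem irred_prod {N n : ℕ} {X : BiSet N n} (hX : X.Irred) {ι : Type*} (s : Finset ι)
    (R : ι → MvPolynomial (Fin (n + 1)) ℂ) (e : ι → ℕ) (hR : ∀ i, (R i).IsHomogeneous (e i))
    (h : ∀ i ∈ s, ∃ u v, X.Mem u v ∧ eval v (R i) ≠ 0) :
    ∃ u v, X.Mem u v ∧ eval v (∏ i ∈ s, R i) ≠ 0 := by
  classical
  induction s using Finset.induction_on with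
  | empty =>
    obtain ⟨u, v, huv⟩ := hX.1
    exact ⟨u, v, huv, by simp⟩
  | insert a s ha ih =>
    have h1 := ih fun i hi => h i (Finset.mem_insert_of_mem hi)
    have h2 := h a (Finset.mem_insert_self _ _)
    by_contra hcon
    push Not at hcon
    rcases hX.2 (rename Sum.inr (R a)) (rename Sum.inr (∏ i ∈ s, R i)) (biHom_inr (hR a))
      (biHom_inr (IsHomogeneous.prod s R e fun i _ => hR i)) (fun u v huv => by
        rw [ev2_mul, ev2_inr, ev2_inr, ← map_mul, ← Finset.prod_insert ha]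
        exact hcon u v huv) with h3 | h3
    · obtain ⟨u, v, huv, hne⟩ := h2
      exact hne (by rw [← ev2_inr (N := N) u]; exact h3 u v huv)
    · obtain ⟨u, v, huv, hne⟩ := h1
      exact hne (by rw [← ev2_inr (N := N) u]; exact h3 u v huv)

/-- The theorem for varieties over projective space. -/
theorem variety_main {n q k : ℕ} {μ : ℝ} (hn : 1 ≤ n) {ℓ : Fin q → Fin (n + 1) → ℂ} (hI : Ind k ℓ)
    (hμ : 1 < μ) (hq : 2 * ((n + k - 1).choose (n - 1) : ℕ) * μ < q * (μ - 1))
    {N : ℕ} (X : BiSet N n) (hX : X.MeanRamified ℓ μ) :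
    (∀ u v, X.EntireCurve u v →
      (∃ i, ∀ z, ∑ j, ℓ i j * v z j = 0) ∨ ∀ z z', ∃ t : ℂ, v z' = t • v z) ∧
    (X.Irred → X.GenFinite → (∀ i, ∃ u v, X.Mem u v ∧ ∑ j, ℓ i j * v j ≠ 0) →
      X.PseudoBrody) := by
  classical
  have hcurve : ∀ u v, X.EntireCurve u v →
      (∃ i, ∀ z, ∑ j, ℓ i j * v z j = 0) ∨ ∀ z z', ∃ t : ℂ, v z' = t • v z := by
    intro u v h
    by_cases hnc : ∃ z z', ∀ t : ℂ, v z' ≠ t • v z
    · left
      refine curve_main hn hI hμ hq h.diffv (fun z => (h.mem z).2.1) hnc ?_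
      intro z a ha
      have hord : ∀ i, analyticOrderAt (fun w => ∑ j, ℓ i j * v (w + z) j) 0 = a i := by
        intro i
        have e1 : (fun w => ∑ j, ℓ i j * v (w + z) j)
            = (fun w => ∑ j, ℓ i j * v w j) ∘ fun w => w + z := rfl
        have hd : deriv (fun w : ℂ => w + z) 0 ≠ 0 := by
          rw [deriv_add_const, deriv_id'']
          exact one_ne_zero
        rw [e1, analyticOrderAt_comp_of_deriv_ne_zero (by fun_prop) hd, zero_add]
        exact ha i
      have harc : X.Arc (fun w => u (w + z)) (fun w => v (w + z)) := by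
        refine ⟨fun j => ?_, fun j => ?_, Filter.Eventually.of_forall fun w => h.mem _⟩
        · exact ((h.diffu j).comp (differentiable_id.add_const z)).analyticAt 0
        · exact ((h.diffv j).comp (differentiable_id.add_const z)).analyticAt 0
      exact hX _ _ harc a hord
    · right
      push Not at hnc
      exact hnc
  refine ⟨hcurve, fun hirr hfin hne => ?_⟩
  obtain ⟨D, e, hD, hDne, hDfin⟩ := hfin
  set R : Option (Fin q) → MvPolynomial (Fin (n + 1)) ℂ :=
    fun i => i.elim D fun i => lin (ℓ i) with hR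
  set ee : Option (Fin q) → ℕ := fun i => i.elim e fun _ => 1 with hee
  have hRhom : ∀ i, (R i).IsHomogeneous (ee i) := by
    intro i
    rcases i with _ | i
    · exact hD
    · exact lin_hom _
  have hRℓ : ∀ i v, eval v (R (some i)) = ∑ j, ℓ i j * v j := by
    intro i v
    have : R (some i) = lin (ℓ i) := rfl
    rw [this, eval_lin]
    exact Finset.sum_congr rfl fun j _ => mul_comm _ _
  have hR0 : ∀ v, eval v (R none) = eval v D := fun v => rfl
  obtain ⟨u0, v0, h0, h0ne⟩ := irred_prod hirr Finset.univ R ee hRhom (by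
    intro i _
    rcases i with _ | i
    · exact hDne
    · obtain ⟨u, v, huv, hne⟩ := hne i
      exact ⟨u, v, huv, by rw [hRℓ]; exact hne⟩)
  refine ⟨rename Sum.inr (∏ i, R i), biHom_inr (IsHomogeneous.prod _ R ee fun i _ => hRhom i),
    ⟨u0, v0, h0, by rw [ev2_inr]; exact h0ne⟩, fun u v h z => ?_⟩
  rw [ev2_inr, map_prod]
  rcases hcurve u v h with ⟨i, h1⟩ | h1
  · exact Finset.prod_eq_zero (Finset.mem_univ (some i)) (by rw [hRℓ]; exact h1 z)
  · by_cases hDz : eval (v z) D = 0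
    · exact Finset.prod_eq_zero (Finset.mem_univ none) (by rw [hR0]; exact hDz)
    · exfalso
      obtain ⟨T, hT⟩ := hDfin (v z) hDz
      have hmem : ∀ w, X.Mem (u w) (v z) := by
        intro w
        obtain ⟨t, ht⟩ := h1 w z
        refine ⟨(h.mem w).1, (h.mem z).2.1, fun P hP => ?_⟩
        obtain ⟨a, b, hab⟩ := X.hom P hP
        have h3 := hab 1 t (u w) (v w)
        rw [one_smul, ← ht, (h.mem w).2.2 P hP, mul_zero] at h3
        exact h3
      have hc := Pool.Agent.W602.TL.const_of_finite h.diffu (fun w => (h.mem w).1)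
        (fun w => hT _ (hmem w))
      obtain ⟨w, w', hww⟩ := h.nonconst
      rcases hww with h2 | h2
      · obtain ⟨c, hc⟩ := hc w w'
        exact h2 c hc
      · obtain ⟨c, hc⟩ := h1 w w'
        exact h2 c hc

end Pool.Agent.W601.SM
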