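import Mathlib

/-!
Determinants of families of vectors, and the linear algebra behind the auxiliary function.
-/

set_option autoImplicit false

namespace Pool.Agent.W601.SM

open Matrix Module

variable {K : Type*} [Field K]

/-- If the vectors of a family are linear combinations of the vectors of another one, the
determinants are proportional. -/
theorem det_family_mul {ρ Y : Type*} [Fintype ρ] [DecidableEq ρ] [AddCommGroup Y] [Module K Y]
    (e : Basis ρ K Y) (w w' : ρ → Y) (T : Matrix ρ ρ K) (h : ∀ r, w' r = ∑ s, T s r • w s) :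
    e.det w' = e.det w * T.det := by
  rw [Basis.det_apply, Basis.det_apply, ← Matrix.det_mul]
  congr 1
  ext i r
  rw [Basis.toMatrix_apply, h r, map_sum, Finset.sum_apply', Matrix.mul_apply]
  refine Finset.sum_congr rfl fun s _ => ?_
  rw [map_smul, Finsupp.smul_apply, Basis.toMatrix_apply, smul_eq_mul, mul_comm]

/-- The abstract situation: spaces of forms of three consecutive degrees, with the
multiplication by linear forms. -/
structure Sys (K W L X Y : Type*) [Field K] [AddCommGroup W] [Module K W] [AddCommGroup L]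
    [Module K L] [AddCommGroup X] [Module K X] [AddCommGroup Y] [Module K Y] where
  mL : W →ₗ[K] L →ₗ[K] X
  mX : W →ₗ[K] X →ₗ[K] Y
  comm : ∀ u v c, mX v (mL u c) = mX u (mL v c)
  injL : ∀ u, u ≠ 0 → Function.Injective (mL u)
  injX : ∀ u, u ≠ 0 → Function.Injective (mX u)
  prime : ∀ u v, (∀ t : K, v ≠ t • u) → u ≠ 0 → ∀ b x, mX v b = mX u x → ∃ c, b = mL u c

variable {W L X Y : Type*} [AddCommGroup W] [Module K W] [AddCommGroup L]
    [Module K L] [AddCommGroup X] [Module K X] [AddCommGroup Y] [Module K Y]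

namespace Sys

variable (S : Sys K W L X Y) {τ δ η : Type*} [Fintype τ] [Fintype δ] [Fintype η]
  [DecidableEq τ] [DecidableEq δ] [DecidableEq η]
  (eL : Basis τ K L) (eX : Basis (τ ⊕ δ) K X) (eY : Basis (η ⊕ ((τ ⊕ δ) ⊕ δ)) K Y)
  (A : η → Y)

/-- the rows of the small determinant -/
noncomputable def rowsψ (b : δ → X) (u : W) : τ ⊕ δ → X := Sum.elim (fun s => S.mL u (eL s)) b

/-- the rows of the large determinant -/
noncomputable def rowsΦ (b : δ → X) (u v : W) : η ⊕ ((τ ⊕ δ) ⊕ δ) → Y :=
  Sum.elim A (Sum.elim (fun s => S.mX u (eX s)) fun i => S.mX v (b i))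

/-- the small determinant -/
noncomputable def ψ (b : δ → X) (u : W) : K := eX.det (S.rowsψ eL b u)

/-- the large determinant -/
noncomputable def Φ (b : δ → X) (u v : W) : K := eY.det (S.rowsΦ eX A b u v)

theorem ψ_comb (b b' : δ → X) (u : W) (c : δ → τ → K) (C : Matrix δ δ K)
    (h : ∀ i, b' i = ∑ s, c i s • S.mL u (eL s) + ∑ j, C j i • b j) :
    S.ψ eL eX b' u = S.ψ eL eX b u * C.det := by
  have h1 := det_family_mul eX (S.rowsψ eL b u) (S.rowsψ eL b' u)
    (fromBlocks 1 (Matrix.of fun s i => c i s) 0 C) (by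
      intro r
      rcases r with s | i
      · simp only [rowsψ, Fintype.sum_sum_type, Sum.elim_inl, fromBlocks_apply₁₁,
          fromBlocks_apply₂₁, Matrix.zero_apply, zero_smul, Finset.sum_const_zero, add_zero]
        rw [Finset.sum_eq_single s]
        · simp
        · intro t _ ht; rw [Matrix.one_apply_ne ht, zero_smul]
        · simp
      · simp only [rowsψ, Fintype.sum_sum_type, Sum.elim_inl, Sum.elim_inr, fromBlocks_apply₁₂,
          fromBlocks_apply₂₂, Matrix.of_apply]
        exact h i)
  unfold ψ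
  rw [h1, det_fromBlocks_zero₂₁, det_one, one_mul]

theorem Φ_comb (b b' : δ → X) (u v v' : W) (c : δ → (τ ⊕ δ) → K) (C : Matrix δ δ K)
    (h : ∀ i, S.mX v' (b' i) = ∑ s, c i s • S.mX u (eX s) + ∑ j, C j i • S.mX v (b j)) :
    S.Φ eX eY A b' u v' = S.Φ eX eY A b u v * C.det := by
  have h1 := det_family_mul eY (S.rowsΦ eX A b u v) (S.rowsΦ eX A b' u v')
    (fromBlocks 1 0 0 (fromBlocks 1 (Matrix.of fun s i => c i s) 0 C)) (by
      intro r
      rcases r with a | s | i
      · simp only [rowsΦ, Fintype.sum_sum_type, Sum.elim_inl, Sum.elim_inr, fromBlocks_apply₁₁,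
          fromBlocks_apply₂₁, Matrix.zero_apply, zero_smul, Finset.sum_const_zero, add_zero]
        rw [Finset.sum_eq_single a]
        · simp
        · intro t _ ht; rw [Matrix.one_apply_ne ht, zero_smul]
        · simp
      · simp only [rowsΦ, Fintype.sum_sum_type, Sum.elim_inl, Sum.elim_inr, fromBlocks_apply₁₂,
          fromBlocks_apply₂₂, fromBlocks_apply₁₁,
          fromBlocks_apply₂₁, Matrix.zero_apply, zero_smul, Finset.sum_const_zero, zero_add,
          add_zero]
        have e1 : ∀ x : τ ⊕ δ, (1 : Matrix (τ ⊕ δ) (τ ⊕ δ) K) x s • S.mX u (eX x)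
            = if x = s then S.mX u (eX x) else 0 := fun x => by
          rw [Matrix.one_apply]
          split_ifs <;> simp
        have e2 := Finset.sum_ite_eq' (Finset.univ : Finset (τ ⊕ δ)) s
          (fun x => S.mX u (eX x))
        rw [if_pos (Finset.mem_univ s)] at e2
        rw [← e2, ← Finset.sum_congr rfl (fun x _ => e1 x), Fintype.sum_sum_type]
      · simp only [rowsΦ, Fintype.sum_sum_type, Sum.elim_inl, Sum.elim_inr, fromBlocks_apply₁₂,
          fromBlocks_apply₂₂, Matrix.of_apply, Matrix.zero_apply, zero_smul,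
          Finset.sum_const_zero, zero_add]
        rw [h i, Fintype.sum_sum_type])
  unfold Φ
  rw [h1, det_fromBlocks_zero₂₁, det_one, one_mul, det_fromBlocks_zero₂₁, det_one, one_mul]

theorem Φ_of_comb (b b' : δ → X) (u v : W) (c : δ → τ → K) (C : Matrix δ δ K)
    (h : ∀ i, b' i = ∑ s, c i s • S.mL u (eL s) + ∑ j, C j i • b j) :
    S.Φ eX eY A b' u v = S.Φ eX eY A b u v * C.det := by
  apply S.Φ_comb eX eY A b b' u v v
    (fun i s => eX.repr (S.mL v (∑ t, c i t • eL t)) s) C
  intro i
  rw [h i, map_add, map_sum, map_sum]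
  congr 1
  · have h1 : ∑ x, (S.mX v) (c i x • (S.mL u) (eL x)) = S.mX u (S.mL v (∑ t, c i t • eL t)) := by
      rw [← S.comm, map_sum, map_sum]
      exact Finset.sum_congr rfl fun x _ => by rw [map_smul, map_smul, map_smul, S.comm]
    rw [h1]
    conv_lhs => rw [← eX.sum_repr (S.mL v (∑ t, c i t • eL t)), map_sum]
    exact Finset.sum_congr rfl fun x _ => by rw [map_smul]
  · exact Finset.sum_congr rfl fun j _ => by rw [map_smul]

theorem exists_comb {b : δ → X} {u : W} (hb : S.ψ eL eX b u ≠ 0) (b' : δ → X) :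
    ∃ (c : δ → τ → K) (C : Matrix δ δ K),
      ∀ i, b' i = ∑ s, c i s • S.mL u (eL s) + ∑ j, C j i • b j := by
  have h1 := (Basis.is_basis_iff_det eX).mpr (isUnit_iff_ne_zero.mpr hb)
  set w : Basis (τ ⊕ δ) K X := Basis.mk h1.1 h1.2.ge with hw
  refine ⟨fun i s => w.repr (b' i) (Sum.inl s), Matrix.of fun j i => w.repr (b' i) (Sum.inr j),
    fun i => ?_⟩
  conv_lhs => rw [← w.sum_repr (b' i)]
  rw [Fintype.sum_sum_type]
  simp only [hw, Basis.mk_apply, rowsψ, Sum.elim_inl, Sum.elim_inr, Matrix.of_apply]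

/-- The quotient of the two determinants does not depend on the choice of `b`. -/
theorem ratio (b b' : δ → X) (u v : W) :
    S.Φ eX eY A b' u v * S.ψ eL eX b u = S.Φ eX eY A b u v * S.ψ eL eX b' u := by
  have key : ∀ b b' : δ → X, S.ψ eL eX b u ≠ 0 →
      S.Φ eX eY A b' u v * S.ψ eL eX b u = S.Φ eX eY A b u v * S.ψ eL eX b' u := by
    intro b b' hb
    obtain ⟨c, C, h⟩ := S.exists_comb eL eX hb b'
    rw [S.ψ_comb eL eX b b' u c C h, S.Φ_of_comb eL eX eY A b b' u v c C h]
    ring
  by_cases h1 : S.ψ eL eX b u = 0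
  · by_cases h2 : S.ψ eL eX b' u = 0
    · rw [h1, h2, mul_zero, mul_zero]
    · exact (key b' b h2).symm
  · exact key b b' h1

theorem Φ_shift (b : δ → X) (u v : W) (t : K) :
    S.Φ eX eY A b u (v + t • u) = S.Φ eX eY A b u v := by
  have h := S.Φ_comb eX eY A b b u v (v + t • u) (fun i s => t * eX.repr (b i) s) 1 (by
    intro i
    have h1 : ∑ j, (1 : Matrix δ δ K) j i • S.mX v (b j) = S.mX v (b i) := by
      rw [Finset.sum_eq_single i]
      · simp
      · intro j _ hj; rw [Matrix.one_apply_ne hj, zero_smul]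
      · simp
    rw [h1]
    have h2 : ∑ s, (t * eX.repr (b i) s) • S.mX u (eX s) = t • S.mX u (b i) := by
      conv_rhs => rw [← eX.sum_repr (b i), map_sum, Finset.smul_sum]
      exact Finset.sum_congr rfl fun x _ => by rw [map_smul, mul_smul]
    rw [h2, map_add, map_smul, LinearMap.add_apply, LinearMap.smul_apply, add_comm])
  rw [h, det_one, mul_one]

theorem Φ_smul (b : δ → X) (u v : W) (t : K) :
    S.Φ eX eY A b u (t • v) = S.Φ eX eY A b u v * t ^ Fintype.card δ := by
  have h := S.Φ_comb eX eY A b b u v (t • v) (fun _ _ => 0) (t • 1) (by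
    intro i
    have h1 : ∑ j, (t • (1 : Matrix δ δ K)) j i • S.mX v (b j) = t • S.mX v (b i) := by
      rw [Finset.sum_eq_single i]
      · simp
      · intro j _ hj; rw [Matrix.smul_apply, Matrix.one_apply_ne hj, smul_zero, zero_smul]
      · simp
    rw [h1, map_smul, LinearMap.smul_apply]
    simp)
  rw [h, det_smul, det_one, mul_one]

end Sys

/-- linearly independent families with the right number of members have nonzero determinant -/
theorem det_ne_of_li {ρ Y : Type*} [Fintype ρ] [DecidableEq ρ] [AddCommGroup Y] [Module K Y]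
    (e : Basis ρ K Y) {w : ρ → Y} (h : LinearIndependent K w) : e.det w ≠ 0 := by
  have : Module.Finite K Y := Module.Finite.of_basis e
  have h2 : Submodule.span K (Set.range w) = ⊤ :=
    h.span_eq_top_of_card_eq_finrank' (by rw [Module.finrank_eq_card_basis e])
  exact isUnit_iff_ne_zero.mp ((Basis.is_basis_iff_det e).mp ⟨h, h2⟩)

/-- extension of a linearly independent family to a basis by members of a supplementary subspace -/
theorem exists_ext {κ η Y : Type*} [Fintype κ] [Fintype η] [AddCommGroup Y] [Module K Y]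
    [Module.Finite K Y] {r : κ → Y} (hr : LinearIndependent K r) (I : Submodule K Y)
    (hI : I ⊔ Submodule.span K (Set.range r) = ⊤)
    (hc : Module.finrank K Y = Fintype.card η + Fintype.card κ) :
    ∃ A : η → Y, (∀ a, A a ∈ I) ∧ LinearIndependent K (Sum.elim A r) := by
  classical
  set V := Submodule.span K (Set.range r) with hV
  have hfV : Module.finrank K V = Fintype.card κ := finrank_span_eq_card hr
  have hfQ : Module.finrank K (Y ⧸ V) = Fintype.card η := by
    have := V.finrank_quotient_add_finrank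
    omega
  set e : Basis η K (Y ⧸ V) := (Module.finBasisOfFinrankEq K (Y ⧸ V) hfQ).reindex
    (Fintype.equivFin η).symm with he
  have hsur : ∀ y : Y ⧸ V, ∃ a ∈ I, V.mkQ a = y := by
    intro y
    obtain ⟨y, rfl⟩ := V.mkQ_surjective y
    have : y ∈ I ⊔ V := by rw [hI]; exact Submodule.mem_top
    obtain ⟨a, ha, v, hv, rfl⟩ := Submodule.mem_sup.mp this
    refine ⟨a, ha, ?_⟩
    rw [map_add, Submodule.mkQ_apply, Submodule.mkQ_apply, (Submodule.Quotient.mk_eq_zero V).mpr hv,
      add_zero]
  choose A hA hAe using fun a => hsur (e a)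
  refine ⟨A, hA, ?_⟩
  rw [Fintype.linearIndependent_iff]
  intro g hg
  rw [Fintype.sum_sum_type] at hg
  simp only [Sum.elim_inl, Sum.elim_inr] at hg
  have h1 : ∀ a, g (Sum.inl a) = 0 := by
    have h2 := congrArg V.mkQ hg
    rw [map_add, map_zero, map_sum] at h2
    have h3 : V.mkQ (∑ x, g (Sum.inr x) • r x) = 0 := by
      rw [Submodule.mkQ_apply, Submodule.Quotient.mk_eq_zero]
      exact Submodule.sum_mem _ fun x _ => Submodule.smul_mem _ _
        (Submodule.subset_span (Set.mem_range_self x))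
    rw [h3, add_zero] at h2
    have h4 : ∑ a, g (Sum.inl a) • e a = 0 := by
      rw [← h2]
      exact Finset.sum_congr rfl fun a _ => by rw [map_smul, hAe]
    exact Fintype.linearIndependent_iff.mp e.linearIndependent _ h4
  have h5 : ∑ x, g (Sum.inr x) • r x = 0 := by
    rw [← hg]
    simp [h1]
  intro i
  rcases i with a | x
  · exact h1 a
  · exact Fintype.linearIndependent_iff.mp hr _ h5 x

namespace Sys

variable (S : Sys K W L X Y) {τ δ η : Type*} [Fintype τ] [Fintype δ] [Fintype η]
  [DecidableEq τ] [DecidableEq δ] [DecidableEq η]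
  (eL : Basis τ K L) (eX : Basis (τ ⊕ δ) K X) (eY : Basis (η ⊕ ((τ ⊕ δ) ⊕ δ)) K Y)

/-- for each nonzero `u` there is a good `b` -/
theorem exists_b {u : W} (hu : u ≠ 0) : ∃ b : δ → X, S.ψ eL eX b u ≠ 0 := by
  have : Module.Finite K X := Module.Finite.of_basis eX
  have hr : LinearIndependent K fun s => S.mL u (eL s) :=
    (eL.linearIndependent.map' (S.mL u) (LinearMap.ker_eq_bot.mpr (S.injL u hu)))
  obtain ⟨b, _, hb⟩ := exists_ext (η := δ) hr ⊤ (by simp)
    (by rw [Module.finrank_eq_card_basis eX, Fintype.card_sum, add_comm])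
  refine ⟨b, det_ne_of_li eX ?_⟩
  have h2 := hb.comp (Sum.swap : τ ⊕ δ → δ ⊕ τ) Sum.swap_leftInverse.injective
  convert h2 using 1
  funext x
  rcases x with x | x <;> rfl

/-- the rows of the large determinant which come from the linear forms are independent -/
theorem li_rows {u v : W} (hu : u ≠ 0) (hv : ∀ t : K, v ≠ t • u) {b : δ → X}
    (hb : S.ψ eL eX b u ≠ 0) :
    LinearIndependent K (Sum.elim (fun s => S.mX u (eX s)) fun i => S.mX v (b i)) := by
  have h1 := ((Basis.is_basis_iff_det eX).mpr (isUnit_iff_ne_zero.mpr hb)).1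
  rw [Fintype.linearIndependent_iff] at h1 ⊢
  intro g hg
  rw [Fintype.sum_sum_type] at hg
  simp only [Sum.elim_inl, Sum.elim_inr] at hg
  have h2 : S.mX v (∑ i, g (Sum.inr i) • b i) = S.mX u (-∑ s, g (Sum.inl s) • eX s) := by
    rw [map_neg, map_sum, map_sum, eq_neg_iff_add_eq_zero, ← hg, add_comm]
    simp only [map_smul]
  obtain ⟨c, hc⟩ := S.prime u v hv hu _ _ h2
  have h3 : ∀ i, g (Sum.inr i) = 0 := by
    have h4 := h1 (Sum.elim (fun s => -(eL.repr c s)) fun i => g (Sum.inr i)) (by
      rw [Fintype.sum_sum_type]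
      simp only [rowsψ, Sum.elim_inl, Sum.elim_inr]
      have h5 : S.mL u c = ∑ x, eL.repr c x • S.mL u (eL x) := by
        conv_lhs => rw [← eL.sum_repr c, map_sum]
        exact Finset.sum_congr rfl fun x _ => map_smul _ _ _
      rw [hc, h5, ← Finset.sum_add_distrib]
      exact Finset.sum_eq_zero fun x _ => by rw [neg_smul, neg_add_cancel])
    intro i
    exact h4 (Sum.inr i)
  have h5 : S.mX u (∑ s, g (Sum.inl s) • eX s) = 0 := by
    have h6 : ∑ i, g (Sum.inr i) • b i = 0 := Finset.sum_eq_zero fun i _ => by rw [h3, zero_smul]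
    rw [h6, map_zero] at h2
    rw [map_neg] at h2
    exact neg_eq_zero.mp h2.symm
  have h7 : ∑ s, g (Sum.inl s) • eX s = 0 := S.injX u hu (by rw [h5, map_zero])
  intro i
  rcases i with s | i
  · exact Fintype.linearIndependent_iff.mp eX.linearIndependent _ h7 s
  · exact h3 i

/-- choice of the forms `A` for which the large determinant does not vanish at a given point -/
theorem exists_A {u v : W} (hu : u ≠ 0) (hv : ∀ t : K, v ≠ t • u) (I : Submodule K Y)
    (hI : I ⊔ (LinearMap.range (S.mX u) ⊔ LinearMap.range (S.mX v)) = ⊤) :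
    ∃ A : η → Y, (∀ a, A a ∈ I) ∧ ∃ b : δ → X, S.ψ eL eX b u ≠ 0 ∧
      S.Φ eX eY A b u v ≠ 0 := by
  have : Module.Finite K Y := Module.Finite.of_basis eY
  obtain ⟨b, hb⟩ := S.exists_b eL eX hu
  have hr := S.li_rows eL eX hu hv hb
  set r := (Sum.elim (fun s => S.mX u (eX s)) fun i => S.mX v (b i)) with hrd
  have hspan : LinearMap.range (S.mX u) ⊔ LinearMap.range (S.mX v)
      ≤ Submodule.span K (Set.range r) := by
    have h1 : LinearMap.range (S.mX u) ≤ Submodule.span K (Set.range r) := by
      rintro _ ⟨x, rfl⟩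
      rw [← eX.sum_repr x, map_sum]
      exact Submodule.sum_mem _ fun s _ => by
        rw [map_smul]
        exact Submodule.smul_mem _ _ (Submodule.subset_span ⟨Sum.inl s, rfl⟩)
    refine sup_le h1 ?_
    rintro _ ⟨x, rfl⟩
    obtain ⟨c, C, h⟩ := S.exists_comb eL eX hb (fun _ : δ => x)
    by_cases hδ : Nonempty δ
    · obtain ⟨i⟩ := hδ
      have hx : x = ∑ s, c i s • S.mL u (eL s) + ∑ j, C j i • b j := h i
      rw [hx, map_add, map_sum, map_sum]
      refine Submodule.add_mem _ (Submodule.sum_mem _ fun s _ => ?_)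
        (Submodule.sum_mem _ fun j _ => ?_)
      · rw [map_smul, S.comm]
        exact Submodule.smul_mem _ _ (h1 ⟨_, rfl⟩)
      · rw [map_smul]
        exact Submodule.smul_mem _ _ (Submodule.subset_span ⟨Sum.inr j, rfl⟩)
    · rw [not_nonempty_iff] at hδ
      have h2 := ((Basis.is_basis_iff_det eX).mpr (isUnit_iff_ne_zero.mpr hb)).2
      have hx : x ∈ Submodule.span K (Set.range (S.rowsψ eL b u)) := by
        rw [h2]; exact Submodule.mem_top
      refine Submodule.span_induction ?_ ?_ ?_ ?_ hx
      · rintro _ ⟨s | i, rfl⟩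
        · simp only [rowsψ, Sum.elim_inl]
          rw [S.comm]
          exact h1 ⟨_, rfl⟩
        · exact (hδ.false i).elim
      · rw [map_zero]; exact Submodule.zero_mem _
      · intro x y _ _ hx hy
        rw [map_add]; exact Submodule.add_mem _ hx hy
      · intro t x _ hx
        rw [map_smul]; exact Submodule.smul_mem _ _ hx
  obtain ⟨A, hA, hli⟩ := exists_ext (η := η) hr I (top_le_iff.mp (hI ▸ sup_le_sup_left hspan I))
    (by rw [Module.finrank_eq_card_basis eY]; simp [Fintype.card_sum])
  exact ⟨A, hA, b, hb, det_ne_of_li eY hli⟩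

end Sys

end Pool.Agent.W601.SM
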