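import Pool.Agent.W601.SM.Alg

/-!
Bounds for determinants and orders of vanishing of determinants.
-/

set_option autoImplicit false

namespace Pool.Agent.W601.SM

open Matrix Module

theorem norm_det_le {ρ : Type*} [Fintype ρ] [DecidableEq ρ] (M : Matrix ρ ρ ℂ) (B : ρ → ℝ)
    (h : ∀ c r, ‖M c r‖ ≤ B c) : ‖M.det‖ ≤ (Fintype.card ρ).factorial * ∏ c, B c := by
  rw [← det_transpose, det_apply]
  refine (norm_sum_le _ _).trans ?_
  refine (Finset.sum_le_sum (g := fun _ => ∏ c, B c) fun σ _ => ?_).trans ?_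
  · have h1 : ‖Equiv.Perm.sign σ • ∏ i, Mᵀ (σ i) i‖ = ‖∏ i, Mᵀ (σ i) i‖ := by
      rcases Int.units_eq_one_or (Equiv.Perm.sign σ) with h | h <;> simp [h]
    rw [h1, norm_prod]
    exact Finset.prod_le_prod (fun _ _ => norm_nonneg _) fun i _ => h i (σ i)
  · rw [Finset.sum_const, nsmul_eq_mul, Finset.card_univ, Fintype.card_perm]

theorem le_order_prod {ι : Type*} (s : Finset ι) (f : ι → ℂ → ℂ) (z : ℂ) (o : ι → ℕ)
    (hf : ∀ i ∈ s, AnalyticAt ℂ (f i) z) (h : ∀ i ∈ s, (o i : ℕ∞) ≤ analyticOrderAt (f i) z) :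
    ((∑ i ∈ s, o i : ℕ) : ℕ∞) ≤ analyticOrderAt (fun w => ∏ i ∈ s, f i w) z := by
  classical
  induction s using Finset.induction_on with
  | empty => simp
  | insert a s ha ih =>
    have h1 : (fun w => ∏ i ∈ insert a s, f i w) = f a * fun w => ∏ i ∈ s, f i w := by
      funext w
      rw [Finset.prod_insert ha]
      rfl
    rw [h1, Finset.sum_insert ha, analyticOrderAt_mul (hf a (Finset.mem_insert_self _ _))
      (Finset.analyticAt_fun_prod _ fun i hi => hf i (Finset.mem_insert_of_mem hi)), Nat.cast_add]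
    exact add_le_add (h a (Finset.mem_insert_self _ _))
      (ih (fun i hi => hf i (Finset.mem_insert_of_mem hi))
        fun i hi => h i (Finset.mem_insert_of_mem hi))

theorem le_order_sum {ι : Type*} (s : Finset ι) (f : ι → ℂ → ℂ) (z : ℂ) (o : ℕ∞)
    (h : ∀ i ∈ s, o ≤ analyticOrderAt (f i) z) :
    o ≤ analyticOrderAt (fun w => ∑ i ∈ s, f i w) z := by
  classical
  induction s using Finset.induction_on with
  | empty =>
    have : (fun w : ℂ => ∑ i ∈ (∅ : Finset ι), f i w) = fun _ => (0 : ℂ) := by simp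
    rw [this]
    have h0 : analyticOrderAt (fun _ : ℂ => (0 : ℂ)) z = ⊤ := by
      rw [analyticOrderAt_eq_top]
      exact Filter.Eventually.of_forall fun _ => rfl
    rw [h0]
    exact le_top
  | insert a s ha ih =>
    have h1 : (fun w => ∑ i ∈ insert a s, f i w) = f a + fun w => ∑ i ∈ s, f i w := by
      funext w
      rw [Finset.sum_insert ha]
      rfl
    rw [h1]
    exact (le_min (h a (Finset.mem_insert_self _ _))
      (ih fun i hi => h i (Finset.mem_insert_of_mem hi))).trans le_analyticOrderAt_add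

theorem le_order_det {ρ : Type*} [Fintype ρ] [DecidableEq ρ] (M : ℂ → Matrix ρ ρ ℂ) (z : ℂ)
    (o : ρ → ℕ) (hM : ∀ c r, AnalyticAt ℂ (fun w => M w c r) z)
    (h : ∀ c r, (o c : ℕ∞) ≤ analyticOrderAt (fun w => M w c r) z) :
    ((∑ c, o c : ℕ) : ℕ∞) ≤ analyticOrderAt (fun w => (M w).det) z := by
  have h1 : (fun w => (M w).det)
      = fun w => ∑ σ : Equiv.Perm ρ, ((Equiv.Perm.sign σ : ℤ) : ℂ) * ∏ i, M w i (σ i) := by
    funext w
    rw [← det_transpose, det_apply']
    rfl
  rw [h1]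
  apply le_order_sum
  intro σ _
  have h2 : (fun w => ((Equiv.Perm.sign σ : ℤ) : ℂ) * ∏ i, M w i (σ i))
      = (fun _ => ((Equiv.Perm.sign σ : ℤ) : ℂ)) * fun w => ∏ i, M w i (σ i) := rfl
  rw [h2, analyticOrderAt_mul analyticAt_const
    (Finset.analyticAt_fun_prod _ fun i _ => hM i (σ i))]
  refine le_trans ?_ le_add_self
  exact le_order_prod Finset.univ _ z o (fun i _ => hM i (σ i)) fun i _ => h i (σ i)

end Pool.Agent.W601.SM
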