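import Pool.Agent.W601.SM.Curve

/-!
There are no ramified entire curves.
-/

set_option autoImplicit false

namespace Pool.Agent.W601.SM

open Matrix Module Filter Metric Real Set Topology Pool.Agent.H159R3.NV Pool.Agent.W602.NC
  Pool.Agent.W602.TL

theorem real_pow_ineq {X σ R C e : ℝ} {q b A B κ N : ℕ} (hX : 0 ≤ X) (hσ : 0 < σ) (hR : 0 ≤ R)
    (hC : 0 ≤ C) (he : 0 ≤ e) (hBA : B ≤ A) (hκ : κ + 2 * b * A + B * q = A * q)
    (hRσ : R ≤ σ ^ q) (h : X * σ ^ q ≤ C * e ^ N * σ ^ (b + b) * R) :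
    X ^ A * σ ^ κ ≤ C ^ A * e ^ (N * A) * R ^ (A - B) := by
  have h1 : (X * σ ^ q) ^ A ≤ (C * e ^ N * σ ^ (b + b) * R) ^ A :=
    pow_le_pow_left₀ (by positivity) h A
  have h2 : R ^ A ≤ R ^ (A - B) * (σ ^ q) ^ B := by
    have e1 : R ^ A = R ^ (A - B) * R ^ B := by rw [← pow_add, Nat.sub_add_cancel hBA]
    rw [e1]
    exact mul_le_mul_of_nonneg_left (pow_le_pow_left₀ hR hRσ B) (pow_nonneg hR _)
  have hpos : 0 < σ ^ (2 * b * A + B * q) := pow_pos hσ _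
  have h3 : (X ^ A * σ ^ κ) * σ ^ (2 * b * A + B * q)
      ≤ (C ^ A * e ^ (N * A) * R ^ (A - B)) * σ ^ (2 * b * A + B * q) := by
    calc (X ^ A * σ ^ κ) * σ ^ (2 * b * A + B * q) = (X * σ ^ q) ^ A := by
          rw [mul_assoc, ← pow_add, ← add_assoc, hκ, mul_pow, ← pow_mul, mul_comm A q]
      _ ≤ (C * e ^ N * σ ^ (b + b) * R) ^ A := h1
      _ = (C ^ A * e ^ (N * A) * σ ^ (2 * b * A)) * R ^ A := by
          rw [mul_pow, mul_pow, mul_pow, ← pow_mul, ← pow_mul, ← two_mul]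
      _ ≤ (C ^ A * e ^ (N * A) * σ ^ (2 * b * A)) * (R ^ (A - B) * (σ ^ q) ^ B) :=
          mul_le_mul_of_nonneg_left h2 (by positivity)
      _ = _ := by rw [← pow_mul, mul_comm q B, pow_add]; ring
  exact le_of_mul_le_mul_right h3 hpos

namespace Frame

variable {m p : ℕ} {L X Y : Type*} [AddCommGroup L] [Module ℂ L] [AddCommGroup X]
    [Module ℂ X] [AddCommGroup Y] [Module ℂ Y] (Q : Frame m (p + 1) L X Y)

theorem dF_comp {F : ℂ → Fin m → ℂ} (hF : Ent F) {φ : ℂ → ℂ} (hφ : Differentiable ℂ φ) (z : ℂ) :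
    dF (fun z => F (φ z)) z = deriv φ z • dF F (φ z) := by
  funext j
  have h := (((hF j) (φ z)).hasDerivAt.comp z (hφ z).hasDerivAt).deriv
  simp only [dF, Pi.smul_apply, smul_eq_mul]
  rw [mul_comm]
  exact h

theorem exists_ratio {F : ℂ → Fin m → ℂ} (hnz : ∀ z, F z ≠ 0)
    (hnc : ∃ z z', ∀ t : ℂ, F z' ≠ t • F z) :
    ∃ j1, ∀ c : ℂ, ∃ z, Q.U F j1 z - c * Q.U F 0 z ≠ 0 := by
  by_contra hcon
  push Not at hcon
  choose c hc using hcon
  obtain ⟨z, z', h⟩ := hnc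
  have h1 : ∀ j w, Q.ℓ j (F w) = c j * Q.ℓ 0 (F w) := fun j w => sub_eq_zero.mp (hc j w)
  by_cases h0 : Q.ℓ 0 (F z) = 0
  · exact hnz z (Q.span _ fun j => by rw [h1, h0, mul_zero])
  · apply h (Q.ℓ 0 (F z') / Q.ℓ 0 (F z))
    rw [← sub_eq_zero]
    apply Q.span
    intro j
    rw [map_sub, map_smul, h1 j z', h1 j z, smul_eq_mul]
    field_simp
    ring

theorem sup_prod {F : ℂ → Fin m → ℂ} (z : ℂ) : ∏ i, ‖Q.U F i z‖ ≤ sup (Q.U F) z ^ (p + 1) := by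
  calc ∏ i, ‖Q.U F i z‖ ≤ ∏ _i : Fin (p + 1), sup (Q.U F) z :=
        Finset.prod_le_prod (fun _ _ => norm_nonneg _) fun i _ => le_sup _ z i
    _ = _ := by simp

/-- the multiplicities have a large mean -/
def Mn (A B : ℕ) (F : ℂ → Fin m → ℂ) : Prop :=
  ∀ z, ∀ a : Fin (p + 1) → ℕ, (∀ i, analyticOrderAt (Q.U F i) z = a i) →
    A * (Finset.univ.filter fun i => a i ≠ 0).card ≤ B * ∑ i, a i

theorem no_curve {A B : ℕ} (hBA : B ≤ A) (hn : 2 * Q.b * A + B * (p + 1) < A * (p + 1))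
    {F : ℂ → Fin m → ℂ} (hF : Ent F) (hnz : ∀ z, F z ≠ 0) (hne : ∀ i, ∃ z, Q.U F i z ≠ 0)
    (hnc : ∃ z z', ∀ t : ℂ, F z' ≠ t • F z) (hM : Q.Mn A B F) : False := by
  classical
  obtain ⟨j1, hj1⟩ := Q.exists_ratio hnz hnc
  -- a good point
  obtain ⟨zw, hzw⟩ : ∃ z, Q.U F j1 z * deriv (Q.U F 0) z - deriv (Q.U F j1) z * Q.U F 0 z ≠ 0 := by
    by_contra hcon
    push Not at hcon
    obtain ⟨c', hc'⟩ := dep2 (Q.U_diff hF j1) (Q.U_diff hF 0) (hne 0) hcon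
    obtain ⟨z, hz⟩ := hj1 c'
    exact hz (hc' z)
  have hwd : Differentiable ℂ
      fun z => Q.U F j1 z * deriv (Q.U F 0) z - deriv (Q.U F j1) z * Q.U F 0 z :=
    ((Q.U_diff hF j1).mul (Q.U_diff hF 0).deriv).sub
      ((Q.U_diff hF j1).deriv.mul (Q.U_diff hF 0))
  have hev : ∀ᶠ z in 𝓝[≠] (0 : ℂ), (∀ i, Q.U F i z ≠ 0) ∧
      Q.U F j1 z * deriv (Q.U F 0) z - deriv (Q.U F j1) z * Q.U F 0 z ≠ 0 := by
    refine Filter.Eventually.and ?_ (ev_ne hwd hzw 0)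
    rw [Filter.eventually_all]
    intro i
    obtain ⟨z, hz⟩ := hne i
    exact ev_ne (Q.U_diff hF i) hz 0
  obtain ⟨z1, hz1, hz1w⟩ := hev.exists
  have hind : ∀ t : ℂ, dF F z1 ≠ t • F z1 := by
    intro t ht
    apply hz1w
    have h1 : ∀ i, deriv (Q.U F i) z1 = t * Q.U F i z1 := by
      intro i
      have h2 : deriv (Q.U F i) z1 = Q.ℓ i (dF F z1) := hF.lin_deriv (Q.ℓ i) z1
      rw [h2, ht, map_smul, smul_eq_mul]
      rfl
    rw [h1, h1]
    ring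
  obtain ⟨AA, hAA, hGne⟩ := Q.exists_A (hnz z1) hind fun i => Or.inl (hz1 i)
  -- the numbers
  obtain ⟨κ, hκ0, hκ⟩ : ∃ κ, 0 < κ ∧ κ + 2 * Q.b * A + B * (p + 1) = A * (p + 1) :=
    ⟨A * (p + 1) - (2 * Q.b * A + B * (p + 1)), by omega, by omega⟩
  obtain ⟨C, hC1, hC⟩ := Q.P_point hAA
  refine contra (Q.U F) (Q.U_diff hF) hne j1 hj1 (P := Q.P AA F) (Q.P_diff AA hF hnz)
    ⟨z1, hGne⟩ ?_
  intro z0 h0 hP
  set F' : ℂ → Fin m → ℂ := fun z => F (ex z0 z) with hF'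
  have hF'e : Ent F' := fun j => (hF j).comp (ex_diff z0)
  have hF'nz : ∀ z, F' z ≠ 0 := fun z => hnz _
  have hF'ne : ∀ i, ∃ z, Q.U F' i z ≠ 0 := fun i => ⟨0, h0 i⟩
  have hord : ∀ i z, analyticOrderAt (Q.U F' i) z = analyticOrderAt (Q.U F i) (ex z0 z) := by
    intro i z
    have e1 : Q.U F' i = Q.U F i ∘ ex z0 := rfl
    rw [e1, analyticOrderAt_comp_of_deriv_ne_zero ((ex_diff z0).analyticAt z)]
    rw [ex_deriv]
    exact ex_ne z0 z
  have hP'0 : Q.P AA F' 0 ≠ 0 := by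
    have e1 : Q.P AA F' 0 = Q.P AA F (ex z0 0) * (deriv (ex z0) 0) ^ Q.b := by
      unfold P
      rw [hF', dF_comp hF (ex_diff z0), Q.G_smul]
    rw [e1, ex_deriv]
    exact mul_ne_zero hP (pow_ne_zero _ (ex_ne _ _))
  have hPd : Differentiable ℂ fun z => Q.P AA F' z ^ A := (Q.P_diff AA hF'e hF'nz).pow A
  have hCA : 1 ≤ C ^ A := one_le_pow₀ hC1
  refine circle (c := A - B) (d := Q.N * A) hκ0 hCA (Q.U_diff hF'e) h0 hPd
    (pow_ne_zero _ hP'0) ?_ ?_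
  · intro z
    set a : Fin (p + 1) → ℕ := fun i => (analyticOrderAt (Q.U F' i) z).toNat with ha
    have hai : ∀ i, analyticOrderAt (Q.U F' i) z = a i := fun i =>
      ord_fin (Q.U_diff hF'e i) (hF'ne i) z
    have h1 : analyticOrderAt (fun z => ∏ i, Q.U F' i z ^ (A - B)) z
        = (((A - B) * ∑ i, a i : ℕ) : ℕ∞) := by
      rw [ord_prod _ (fun i z => Q.U F' i z ^ (A - B)) z
        (fun i _ => ((Q.U_diff hF'e i).analyticAt z).pow (A - B)), Finset.mul_sum]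
      push_cast
      refine Finset.sum_congr rfl fun i _ => ?_
      have e : (fun z => Q.U F' i z ^ (A - B)) = Q.U F' i ^ (A - B) := rfl
      rw [e, analyticOrderAt_pow ((Q.U_diff hF'e i).analyticAt z), nsmul_eq_mul, hai i]
      simp
    have h2 : ((∑ i, (a i - 1) : ℕ) : ℕ∞) ≤ analyticOrderAt (Q.P AA F') z := by
      apply Q.P_order hAA hF'e hF'nz z (fun i => a i - 1)
      · intro i
        have : ((a i - 1 : ℕ) : ℕ∞) ≤ (a i : ℕ∞) := by exact_mod_cast Nat.sub_le _ _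
        exact this.trans (hai i).ge
      · intro i
        have h3 := ord_deriv ((Q.U_diff hF'e i).analyticAt z)
        have e2 : deriv (Q.U F' i) = fun z => Q.ℓ i (dF F' z) :=
          funext fun z => hF'e.lin_deriv (Q.ℓ i) z
        rw [e2] at h3
        rw [ENat.natCast_sub, Nat.cast_one, tsub_le_iff_right]
        exact (hai i).ge.trans h3
    have h3 : (A - B) * ∑ i, a i ≤ A * ∑ i, (a i - 1) := by
      have h4 := hM (ex z0 z) a (fun i => by rw [← hord, hai i])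
      have h5 : ∑ i, a i = ∑ i, (a i - 1) + (Finset.univ.filter fun i => a i ≠ 0).card := by
        rw [Finset.card_filter, ← Finset.sum_add_distrib]
        refine Finset.sum_congr rfl fun i _ => ?_
        split_ifs with h
        · omega
        · omega
      set S1 := ∑ i, a i
      set S2 := ∑ i, (a i - 1)
      set k := (Finset.univ.filter fun i => a i ≠ 0).card
      have h6 : (A - B) * S1 + B * S1 = A * S1 := by
        rw [← add_mul, Nat.sub_add_cancel hBA]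
      have h7 : A * S1 = A * S2 + A * k := by rw [h5, mul_add]
      omega
    have e3 : (fun z => Q.P AA F' z ^ A) = Q.P AA F' ^ A := rfl
    have h1' : analyticOrderAt (fun z => ∏ i, (fun i z => Q.U F i (ex z0 z)) i z ^ (A - B)) z
        = (((A - B) * ∑ i, a i : ℕ) : ℕ∞) := h1
    rw [h1', e3, analyticOrderAt_pow ((Q.P_diff AA hF'e hF'nz).analyticAt z)]
    calc (((A - B) * ∑ i, a i : ℕ) : ℕ∞) ≤ ((A * ∑ i, (a i - 1) : ℕ) : ℕ∞) := by
          exact_mod_cast h3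
      _ = A • ((∑ i, (a i - 1) : ℕ) : ℕ∞) := by rw [nsmul_eq_mul]; push_cast; rfl
      _ ≤ _ := nsmul_le_nsmul_right h2 _
  · intro z ε hε hε1 hg
    have hg' : GoodAt (Q.U F') z ε := hg
    have h1 := hC F' hF'e hF'nz z ε hε hε1 hg'
    have hsp : 0 < sup (Q.U F') z := sup_pos (hg'.1 0 z (mem_closedBall_self hε.le))
    have h2 := real_pow_ineq (norm_nonneg (Q.P AA F' z)) hsp
      (Finset.prod_nonneg fun i _ => norm_nonneg _) (by linarith : (0 : ℝ) ≤ C)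
      (by positivity : (0 : ℝ) ≤ 1 / ε) hBA hκ (Q.sup_prod z) h1
    rw [norm_pow]
    have h3 : ∏ i, ‖(fun i z => Q.U F i (ex z0 z)) i z‖ ^ (A - B)
        = (∏ i, ‖Q.U F' i z‖) ^ (A - B) := by
      rw [← Finset.prod_pow]
      rfl
    rw [h3]
    exact h2

end Frame

end Pool.Agent.W601.SM
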