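import Pool.Agent.W601.SM.GBound
import Pool.Agent.W602.TL.Line

/-!
The auxiliary function of an entire curve.
-/

set_option autoImplicit false

namespace Pool.Agent.W601.SM

open Matrix Module Filter Metric Real Set Topology Pool.Agent.H159R3.NV Pool.Agent.W602.NC
  Pool.Agent.W602.TL

/-- the coordinates are entire functions -/
def Ent {m : ℕ} (F : ℂ → Fin m → ℂ) : Prop := ∀ j, Differentiable ℂ fun z => F z j

/-- the derivative -/
noncomputable def dF {m : ℕ} (F : ℂ → Fin m → ℂ) (z : ℂ) : Fin m → ℂ :=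
  fun j => deriv (fun z => F z j) z

theorem Ent.dF {m : ℕ} {F : ℂ → Fin m → ℂ} (hF : Ent F) : Ent (dF F) := fun j =>
  (hF j).deriv

theorem Ent.lin {m : ℕ} {F : ℂ → Fin m → ℂ} (hF : Ent F) (φ : (Fin m → ℂ) →ₗ[ℂ] ℂ) :
    Differentiable ℂ fun z => φ (F z) := by
  have e : (fun z => φ (F z)) = fun z => ∑ i, F z i • φ fun j => if i = j then 1 else 0 :=
    funext fun z => LinearMap.pi_apply_eq_sum_univ φ (F z)
  rw [e]
  exact Differentiable.fun_sum fun i _ => (hF i).smul_const _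

theorem Ent.lin_deriv {m : ℕ} {F : ℂ → Fin m → ℂ} (hF : Ent F) (φ : (Fin m → ℂ) →ₗ[ℂ] ℂ)
    (z : ℂ) : deriv (fun z => φ (F z)) z = φ (SM.dF F z) := by
  have e : (fun z => φ (F z)) = fun z => ∑ i, F z i • φ fun j => if i = j then 1 else 0 :=
    funext fun z => LinearMap.pi_apply_eq_sum_univ φ (F z)
  rw [e, LinearMap.pi_apply_eq_sum_univ φ (SM.dF F z),
    deriv_fun_sum fun i _ => ((hF i).smul_const _).differentiableAt]
  exact Finset.sum_congr rfl fun i _ => deriv_smul_const (hF i).differentiableAt _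

theorem det_diff {ρ : Type*} [Fintype ρ] [DecidableEq ρ] (M : ℂ → Matrix ρ ρ ℂ)
    (hM : ∀ c r, Differentiable ℂ fun z => M z c r) : Differentiable ℂ fun z => (M z).det := by
  have e : (fun z => (M z).det) = fun z => ∑ σ : Equiv.Perm ρ,
      ((Equiv.Perm.sign σ : ℤ) : ℂ) * ∏ i, M z (σ i) i := by
    funext z
    rw [det_apply']
  rw [e]
  exact Differentiable.fun_sum fun σ _ =>
    (Differentiable.fun_finsetProd fun i _ => hM (σ i) i).const_mul _

namespace Frame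

variable {m q : ℕ} {L X Y : Type*} [AddCommGroup L] [Module ℂ L] [AddCommGroup X]
    [Module ℂ X] [AddCommGroup Y] [Module ℂ Y] (Q : Frame m q L X Y)

theorem ψ_diff (b : Fin Q.b → X) {F : ℂ → Fin m → ℂ} (hF : Ent F) :
    Differentiable ℂ fun z => Q.ψ b (F z) := by
  have h1 : (fun z => Q.ψ b (F z)) = fun z => (Q.eX.toMatrix (Q.S.rowsψ Q.eL b (F z))).det := by
    funext u
    unfold ψ Sys.ψ
    rw [Basis.det_apply]
  rw [h1]
  refine det_diff _ fun i j => ?_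
  rcases j with s | t
  · exact hF.lin ((Q.eX.coord i) ∘ₗ (Q.S.mL.flip (Q.eL s)))
  · exact (differentiable_const _ : Differentiable ℂ fun _ : ℂ => Q.eX.repr (b t) i)

/-- the matrix of the large determinant -/
noncomputable def MΦ (A : Fin Q.c → Y) (b : Fin Q.b → X) (u v : Fin m → ℂ) :=
  Q.eY.toMatrix (Q.S.rowsΦ Q.eX A b u v)

theorem MΦ_diff (A : Fin Q.c → Y) (b : Fin Q.b → X) {F H : ℂ → Fin m → ℂ} (hF : Ent F)
    (hH : Ent H) (c r) : Differentiable ℂ fun z => Q.MΦ A b (F z) (H z) c r := by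
  rcases r with a | s | t
  · exact (differentiable_const _ : Differentiable ℂ fun _ : ℂ => Q.eY.repr (A a) c)
  · exact hF.lin ((Q.eY.coord c) ∘ₗ (Q.S.mX.flip (Q.eX s)))
  · exact hH.lin ((Q.eY.coord c) ∘ₗ (Q.S.mX.flip (b t)))

theorem Φ_eq (A : Fin Q.c → Y) (b : Fin Q.b → X) (u v : Fin m → ℂ) :
    Q.Φ A b u v = (Q.MΦ A b u v).det := by
  unfold Φ Sys.Φ MΦ
  rw [Basis.det_apply]

theorem Φ_diff (A : Fin Q.c → Y) (b : Fin Q.b → X) {F H : ℂ → Fin m → ℂ} (hF : Ent F)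
    (hH : Ent H) : Differentiable ℂ fun z => Q.Φ A b (F z) (H z) := by
  have e : (fun z => Q.Φ A b (F z) (H z)) = fun z => (Q.MΦ A b (F z) (H z)).det :=
    funext fun z => Q.Φ_eq A b _ _
  rw [e]
  exact det_diff _ fun c r => Q.MΦ_diff A b hF hH c r

/-- the auxiliary function of an entire curve -/
noncomputable def P (A : Fin Q.c → Y) (F : ℂ → Fin m → ℂ) (z : ℂ) : ℂ := Q.G A (F z) (dF F z)

theorem P_diff (A : Fin Q.c → Y) {F : ℂ → Fin m → ℂ} (hF : Ent F) (hnz : ∀ z, F z ≠ 0) :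
    Differentiable ℂ (Q.P A F) := by
  intro z0
  obtain ⟨b, hb⟩ := Q.exists_b (hnz z0)
  have h1 : ∀ᶠ z in 𝓝 z0, Q.ψ b (F z) ≠ 0 :=
    (Q.ψ_diff b hF).continuous.continuousAt.eventually_ne hb
  have h2 : Q.P A F =ᶠ[𝓝 z0] fun z => Q.Φ A b (F z) (dF F z) / Q.ψ b (F z) := by
    filter_upwards [h1] with z hz
    exact Q.G_eq A (hnz z) _ hz
  exact (((Q.Φ_diff A b hF hF.dF) z0).div ((Q.ψ_diff b hF) z0) hb).congr_of_eventuallyEq h2

theorem P_order {A : Fin Q.c → Y} (hA : ∀ a, A a ∈ Q.I) {F : ℂ → Fin m → ℂ} (hF : Ent F)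
    (hnz : ∀ z, F z ≠ 0) (z : ℂ) (o : Fin q → ℕ)
    (h1 : ∀ i, (o i : ℕ∞) ≤ analyticOrderAt (fun z => Q.ℓ i (F z)) z)
    (h2 : ∀ i, (o i : ℕ∞) ≤ analyticOrderAt (fun z => Q.ℓ i (dF F z)) z) :
    ((∑ i, o i : ℕ) : ℕ∞) ≤ analyticOrderAt (Q.P A F) z := by
  classical
  obtain ⟨b, hb⟩ := Q.exists_b (hnz z)
  have e1 : Q.P A F * (fun z => Q.ψ b (F z)) = fun z => (Q.MΦ A b (F z) (dF F z)).det := by
    funext w
    rw [Pi.mul_apply, ← Q.Φ_eq, ← Q.G_mul A (hnz w) _ b]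
    rfl
  have e2 : analyticOrderAt (fun z => Q.ψ b (F z)) z = 0 :=
    ((Q.ψ_diff b hF).analyticAt z).analyticOrderAt_eq_zero.mpr hb
  have e3 : analyticOrderAt (Q.P A F) z
      = analyticOrderAt (fun z => (Q.MΦ A b (F z) (dF F z)).det) z := by
    rw [← e1, analyticOrderAt_mul ((Q.P_diff A hF hnz).analyticAt z)
      ((Q.ψ_diff b hF).analyticAt z), e2, add_zero]
  rw [e3]
  set o' : (Fin Q.c ⊕ ((Fin Q.a ⊕ Fin Q.b) ⊕ Fin Q.b)) → ℕ :=
    fun c => ∑ i ∈ Finset.univ.filter (fun i => Q.col i = c), o i with ho'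
  have hs : ∑ c, o' c = ∑ i, o i := Finset.sum_fiberwise_of_maps_to
    (fun _ _ => Finset.mem_univ _) _
  rw [← hs]
  refine le_order_det _ z o' (fun c r => (Q.MΦ_diff A b hF hF.dF c r).analyticAt z)
    fun c r => ?_
  by_cases hc : ∃ i, Q.col i = c
  · obtain ⟨i, rfl⟩ := hc
    have hoi : o' (Q.col i) = o i := by
      simp only [ho']
      rw [Q.filter_col i, Finset.sum_singleton]
    rw [hoi]
    rcases r with r | r | r
    · have e : (fun w => Q.MΦ A b (F w) (dF F w) (Q.col i) (Sum.inl r)) = fun _ => 0 := by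
        funext w
        rw [MΦ, Basis.toMatrix_apply, Sys.rowsΦ, Sum.elim_inl, Q.repr_col,
          Q.mem_I.mp (hA r) i]
      rw [e]
      have h0 : analyticOrderAt (fun _ : ℂ => (0 : ℂ)) z = ⊤ := by
        rw [analyticOrderAt_eq_top]
        exact Filter.Eventually.of_forall fun _ => rfl
      rw [h0]
      exact le_top
    · have e : (fun w => Q.MΦ A b (F w) (dF F w) (Q.col i) (Sum.inr (Sum.inl r)))
          = (fun w => Q.ℓ i (F w)) * fun _ => Q.evX i (Q.eX r) := by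
        funext w
        rw [MΦ, Basis.toMatrix_apply, Sys.rowsΦ, Sum.elim_inr,
            Sum.elim_inl, Q.repr_col, Q.mul]
        rfl
      rw [e, analyticOrderAt_mul ((hF.lin _).analyticAt z) analyticAt_const]
      exact (h1 i).trans le_self_add
    · have e : (fun w => Q.MΦ A b (F w) (dF F w) (Q.col i) (Sum.inr (Sum.inr r)))
          = (fun w => Q.ℓ i (dF F w)) * fun _ => Q.evX i (b r) := by
        funext w
        rw [MΦ, Basis.toMatrix_apply, Sys.rowsΦ, Sum.elim_inr,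
            Sum.elim_inr, Q.repr_col, Q.mul]
        rfl
      rw [e, analyticOrderAt_mul ((hF.dF.lin _).analyticAt z) analyticAt_const]
      exact (h2 i).trans le_self_add
  · have h0 : o' c = 0 := by
      simp only [ho']
      apply Finset.sum_eq_zero
      intro i hi
      exact absurd ⟨i, (Finset.mem_filter.mp hi).2⟩ hc
    rw [h0]
    simp

end Frame

namespace Frame

variable {m p : ℕ} {L X Y : Type*} [AddCommGroup L] [Module ℂ L] [AddCommGroup X]
    [Module ℂ X] [AddCommGroup Y] [Module ℂ Y] (Q : Frame m (p + 1) L X Y)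

/-- the linear forms along the curve -/
def U (F : ℂ → Fin m → ℂ) : Fin (p + 1) → ℂ → ℂ := fun i z => Q.ℓ i (F z)

theorem U_diff {F : ℂ → Fin m → ℂ} (hF : Ent F) (i : Fin (p + 1)) :
    Differentiable ℂ (Q.U F i) := hF.lin _

theorem P_point {A : Fin Q.c → Y} (hA : ∀ a, A a ∈ Q.I) :
    ∃ C : ℝ, 1 ≤ C ∧ ∀ F : ℂ → Fin m → ℂ, Ent F → (∀ z, F z ≠ 0) → ∀ (z : ℂ) (ε : ℝ),
      0 < ε → ε ≤ 1 → GoodAt (Q.U F) z ε →
      ‖Q.P A F z‖ * sup (Q.U F) z ^ (p + 1)
        ≤ C * (1 / ε) ^ Q.N * sup (Q.U F) z ^ (Q.b + Q.b) * ∏ i, ‖Q.U F i z‖ := by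
  obtain ⟨C, hC1, hC⟩ := Q.G_bound hA
  have he1 : (1 : ℝ) ≤ Real.exp 1 ^ Q.N := one_le_pow₀ (Real.one_le_exp zero_le_one)
  refine ⟨C * Real.exp 1 ^ Q.N, one_le_mul_of_one_le_of_one_le hC1 he1, ?_⟩
  intro F hF hnz z ε hε hε1 hg
  have hzz : z ∈ closedBall z ε := mem_closedBall_self hε.le
  obtain ⟨i0, hi0⟩ := sup_attained (Q.U F) z
  have hU0 : Q.U F i0 z ≠ 0 := hg.1 i0 z hzz
  set t : ℂ := -(deriv (Q.U F i0) z / Q.U F i0 z) with ht
  have hE : 1 ≤ Real.exp 1 * (1 / ε) :=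
    one_le_mul_of_one_le_of_one_le (Real.one_le_exp zero_le_one)
      (by rw [le_div_iff₀ hε]; linarith)
  have h := hC (F z) (dF F z + t • F z) (sup (Q.U F) z) (Real.exp 1 * (1 / ε)) (hnz z)
    (sup_pos (hg.1 0 z hzz)) hE (fun i => le_sup (Q.U F) z i) ⟨i0, hi0.symm⟩ (by
      intro i
      have h1 := wr_pair (Q.U_diff hF i0) (Q.U_diff hF i) hε (fun w hw => hg.1 i0 w hw)
        (fun w hw => hg.2 i0 i w hw)
      have h2 : Q.ℓ i (dF F z + t • F z)
          = (Q.U F i0 z * deriv (Q.U F i) z - deriv (Q.U F i0) z * Q.U F i z) / Q.U F i0 z := by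
        have h3 : Q.ℓ i (dF F z) = deriv (Q.U F i) z := (hF.lin_deriv (Q.ℓ i) z).symm
        have h4 : Q.ℓ i (F z) = Q.U F i z := rfl
        rw [map_add, map_smul, h3, h4, ht, smul_eq_mul]
        field_simp
        ring
      have hp : 0 < ‖Q.U F i0 z‖ := norm_pos_iff.mpr hU0
      rw [h2, norm_div, div_le_iff₀ hp]
      refine h1.trans (le_of_eq ?_)
      have h4 : Q.ℓ i (F z) = Q.U F i z := rfl
      rw [h4]
      ring)
  rw [Q.G_shift] at h
  refine h.trans (le_of_eq ?_)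
  have h4 : ∀ i, Q.ℓ i (F z) = Q.U F i z := fun _ => rfl
  simp only [h4]
  rw [mul_pow]
  ring

end Frame

end Pool.Agent.W601.SM
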