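import Pool.Agent.W601.SM.Bound

/-!
The auxiliary function of two vectors.
-/

set_option autoImplicit false

namespace Pool.Agent.W601.SM

open Matrix Module

/-- spaces of forms of three consecutive degrees, bases, and evaluations at `q` points -/
structure Frame (m q : ℕ) (L X Y : Type*) [AddCommGroup L] [Module ℂ L] [AddCommGroup X]
    [Module ℂ X] [AddCommGroup Y] [Module ℂ Y] where
  S : Sys ℂ (Fin m → ℂ) L X Y
  ℓ : Fin q → (Fin m → ℂ) →ₗ[ℂ] ℂ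
  evX : Fin q → X →ₗ[ℂ] ℂ
  evY : Fin q → Y →ₗ[ℂ] ℂ
  mul : ∀ i u x, evY i (S.mX u x) = ℓ i u * evX i x
  a : ℕ
  b : ℕ
  c : ℕ
  eL : Basis (Fin a) ℂ L
  eX : Basis (Fin a ⊕ Fin b) ℂ X
  eY : Basis (Fin c ⊕ ((Fin a ⊕ Fin b) ⊕ Fin b)) ℂ Y
  col : Fin q → (Fin c ⊕ ((Fin a ⊕ Fin b) ⊕ Fin b))
  col_inj : Function.Injective col
  repr_col : ∀ i y, eY.repr y (col i) = evY i y
  surjX : ∀ t : Fin q → ℂ, ∃ x, ∀ i, evX i x = t i
  span : ∀ w, (∀ i, ℓ i w = 0) → w = 0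

namespace Frame

variable {m q : ℕ} {L X Y : Type*} [AddCommGroup L] [Module ℂ L] [AddCommGroup X]
    [Module ℂ X] [AddCommGroup Y] [Module ℂ Y] (Q : Frame m q L X Y)

/-- the small determinant -/
noncomputable def ψ (b : Fin Q.b → X) (u : Fin m → ℂ) : ℂ := Q.S.ψ Q.eL Q.eX b u

/-- the large determinant -/
noncomputable def Φ (A : Fin Q.c → Y) (b : Fin Q.b → X) (u v : Fin m → ℂ) : ℂ :=
  Q.S.Φ Q.eX Q.eY A b u v

theorem exists_b {u : Fin m → ℂ} (hu : u ≠ 0) : ∃ b, Q.ψ b u ≠ 0 := Q.S.exists_b Q.eL Q.eX hu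

/-- the auxiliary function -/
noncomputable def G (A : Fin Q.c → Y) (u v : Fin m → ℂ) : ℂ :=
  open Classical in
  if hu : u ≠ 0 then Q.Φ A (Q.exists_b hu).choose u v / Q.ψ (Q.exists_b hu).choose u else 0

theorem G_mul (A : Fin Q.c → Y) {u : Fin m → ℂ} (hu : u ≠ 0) (v : Fin m → ℂ)
    (b : Fin Q.b → X) : Q.G A u v * Q.ψ b u = Q.Φ A b u v := by
  unfold G
  rw [dif_pos hu, div_mul_eq_mul_div, div_eq_iff (Q.exists_b hu).choose_spec]
  exact (Q.S.ratio Q.eL Q.eX Q.eY A _ _ u v).symm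

theorem G_eq (A : Fin Q.c → Y) {u : Fin m → ℂ} (hu : u ≠ 0) (v : Fin m → ℂ)
    {b : Fin Q.b → X} (hb : Q.ψ b u ≠ 0) : Q.G A u v = Q.Φ A b u v / Q.ψ b u := by
  rw [eq_div_iff hb, Q.G_mul A hu v b]

theorem G_shift (A : Fin Q.c → Y) (u v : Fin m → ℂ) (t : ℂ) :
    Q.G A u (v + t • u) = Q.G A u v := by
  by_cases hu : u = 0
  · subst hu; rw [smul_zero, add_zero]
  · obtain ⟨b, hb⟩ := Q.exists_b hu
    rw [Q.G_eq A hu _ hb, Q.G_eq A hu _ hb]
    unfold Φ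
    rw [Q.S.Φ_shift]

theorem G_smul (A : Fin Q.c → Y) (u v : Fin m → ℂ) (t : ℂ) :
    Q.G A u (t • v) = Q.G A u v * t ^ Q.b := by
  by_cases hu : u = 0
  · subst hu; unfold G; simp
  · obtain ⟨b, hb⟩ := Q.exists_b hu
    rw [Q.G_eq A hu _ hb, Q.G_eq A hu _ hb]
    unfold Φ
    rw [Q.S.Φ_smul, Fintype.card_fin]
    ring

theorem ψ_smul (b : Fin Q.b → X) (u : Fin m → ℂ) (t : ℂ) :
    Q.ψ b (t • u) = Q.ψ b u * t ^ Q.a := by
  unfold ψ Sys.ψ
  have h := det_family_mul Q.eX (Q.S.rowsψ Q.eL b u) (Q.S.rowsψ Q.eL b (t • u))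
    (Matrix.diagonal (Sum.elim (fun _ => t) fun _ => 1)) (by
      intro r
      rw [Finset.sum_eq_single r]
      · rw [Matrix.diagonal_apply_eq]
        rcases r with s | i
        · simp [Sys.rowsψ]
        · simp [Sys.rowsψ]
      · intro x _ hx; rw [Matrix.diagonal_apply_ne _ hx, zero_smul]
      · simp)
  rw [h, det_diagonal, Fintype.prod_sum_type]
  simp

/-- the forms vanishing at the points -/
def I : Submodule ℂ Y := ⨅ i, LinearMap.ker (Q.evY i)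

theorem mem_I {y : Y} : y ∈ Q.I ↔ ∀ i, Q.evY i y = 0 := by
  unfold I
  simp

theorem I_sup {u v : Fin m → ℂ} (h : ∀ i, Q.ℓ i u ≠ 0 ∨ Q.ℓ i v ≠ 0) :
    Q.I ⊔ (LinearMap.range (Q.S.mX u) ⊔ LinearMap.range (Q.S.mX v)) = ⊤ := by
  obtain ⟨β, hβ⟩ : ∃ β : ℂ, ∀ i, Q.ℓ i (u + β • v) ≠ 0 := by
    have hfin : (Set.range fun i => -(Q.ℓ i u) / Q.ℓ i v).Finite := Set.finite_range _
    obtain ⟨β, hβ⟩ := ((hfin.union (Set.finite_singleton 0)).infinite_compl).nonempty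
    refine ⟨β, fun i hi => ?_⟩
    rw [map_add, map_smul, smul_eq_mul] at hi
    have hβ0 : β ≠ 0 := fun h0 => hβ (Or.inr h0)
    by_cases hv : Q.ℓ i v = 0
    · rw [hv, mul_zero, add_zero] at hi
      rcases h i with h1 | h1
      · exact h1 hi
      · exact h1 hv
    · apply hβ
      left
      refine ⟨i, ?_⟩
      simp only
      rw [div_eq_iff hv]
      linear_combination -hi
  rw [eq_top_iff]
  intro y _
  obtain ⟨x, hx⟩ := Q.surjX fun i => Q.evY i y / Q.ℓ i (u + β • v)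
  have h1 : y = (y - Q.S.mX (u + β • v) x) + (Q.S.mX u x + Q.S.mX v (β • x)) := by
    rw [map_add, LinearMap.add_apply, map_smul, LinearMap.smul_apply, map_smul]
    abel
  rw [h1]
  refine Submodule.add_mem_sup (Q.mem_I.mpr fun i => ?_)
    (Submodule.add_mem_sup ⟨_, rfl⟩ ⟨_, rfl⟩)
  rw [map_sub, Q.mul, hx, mul_div_cancel₀ _ (hβ i), sub_self]

/-- choice of `A` -/
theorem exists_A {u v : Fin m → ℂ} (hu : u ≠ 0) (hv : ∀ t : ℂ, v ≠ t • u)
    (h : ∀ i, Q.ℓ i u ≠ 0 ∨ Q.ℓ i v ≠ 0) :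
    ∃ A : Fin Q.c → Y, (∀ a, A a ∈ Q.I) ∧ Q.G A u v ≠ 0 := by
  obtain ⟨A, hA, b, hb, hΦ⟩ := Q.S.exists_A Q.eL Q.eX Q.eY hu hv Q.I (Q.I_sup h)
  exact ⟨A, hA, by rw [Q.G_eq A hu v hb]; exact div_ne_zero hΦ hb⟩

/-- linear functionals are bounded -/
theorem lin_bound (φ : (Fin m → ℂ) →ₗ[ℂ] ℂ) : ∃ C : ℝ, 0 ≤ C ∧ ∀ w, ‖φ w‖ ≤ C * ‖w‖ :=
  ⟨‖LinearMap.toContinuousLinearMap φ‖, norm_nonneg _, fun w =>
    (LinearMap.toContinuousLinearMap φ).le_opNorm w⟩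

theorem exists_max {ι : Type*} [Finite ι] (f : ι → ℝ) : ∃ C : ℝ, 1 ≤ C ∧ ∀ i, f i ≤ C := by
  obtain ⟨C, hC⟩ := (Set.finite_range f).bddAbove
  exact ⟨max 1 C, le_max_left _ _, fun i => (hC ⟨i, rfl⟩).trans (le_max_right _ _)⟩

theorem lin_bound' {ι : Type*} [Finite ι] (φ : ι → (Fin m → ℂ) →ₗ[ℂ] ℂ) :
    ∃ C : ℝ, 1 ≤ C ∧ ∀ i w, ‖φ i w‖ ≤ C * ‖w‖ := by
  choose C _ hC using fun i => lin_bound (φ i)
  obtain ⟨D, hD1, hD⟩ := exists_max C
  exact ⟨D, hD1, fun i w => (hC i w).trans (mul_le_mul_of_nonneg_right (hD i) (norm_nonneg _))⟩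

/-- number of rows -/
def N : ℕ := Fintype.card (Fin Q.c ⊕ ((Fin Q.a ⊕ Fin Q.b) ⊕ Fin Q.b))

theorem prod_col (β : Fin q → ℝ) :
    ∏ c, ∏ i ∈ Finset.univ.filter (fun i => Q.col i = c), β i = ∏ i, β i := by
  classical
  exact Finset.prod_fiberwise_of_maps_to (fun _ _ => Finset.mem_univ _) _

theorem filter_col (i : Fin q) : Finset.univ.filter (fun j => Q.col j = Q.col i) = {i} := by
  ext j
  simp only [Finset.mem_filter, Finset.mem_univ, true_and, Finset.mem_singleton]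
  exact Q.col_inj.eq_iff

/-- the bound for the large determinant -/
theorem Φ_bound {A : Fin Q.c → Y} (hA : ∀ a, A a ∈ Q.I) (b : Fin Q.b → X) :
    ∃ C : ℝ, 1 ≤ C ∧ ∀ (u v : Fin m → ℂ) (s E : ℝ) (β : Fin q → ℝ), 0 < s → 1 ≤ E →
      (∀ i, 0 ≤ β i) → ‖u‖ ≤ s → ‖v‖ ≤ s * E → (∀ i, ‖Q.ℓ i u‖ ≤ s * β i) →
      (∀ i, ‖Q.ℓ i v‖ ≤ s * E * β i) →
      ‖Q.Φ A b u v‖ ≤ C * E ^ Q.N * s ^ (Q.a + Q.b + Q.b) * ∏ i, β i := by
  classical
  obtain ⟨C1, h1C1, hC1⟩ := exists_max (ι := (Fin Q.c ⊕ ((Fin Q.a ⊕ Fin Q.b) ⊕ Fin Q.b)) × Fin Q.c)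
    fun x => ‖Q.eY.repr (A x.2) x.1‖
  obtain ⟨C2, h1C2, hC2⟩ := lin_bound'
    (ι := (Fin Q.c ⊕ ((Fin Q.a ⊕ Fin Q.b) ⊕ Fin Q.b)) × (Fin Q.a ⊕ Fin Q.b))
    (fun x => (Q.eY.coord x.1) ∘ₗ (Q.S.mX.flip (Q.eX x.2)))
  obtain ⟨C3, h1C3, hC3⟩ := lin_bound'
    (ι := (Fin Q.c ⊕ ((Fin Q.a ⊕ Fin Q.b) ⊕ Fin Q.b)) × Fin Q.b)
    (fun x => (Q.eY.coord x.1) ∘ₗ (Q.S.mX.flip (b x.2)))
  obtain ⟨C4, h1C4, hC4⟩ := exists_max (ι := Fin q × (Fin Q.a ⊕ Fin Q.b))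
    fun x => ‖Q.evX x.1 (Q.eX x.2)‖
  obtain ⟨C5, h1C5, hC5⟩ := exists_max (ι := Fin q × Fin Q.b) fun x => ‖Q.evX x.1 (b x.2)‖
  set K : ℝ := C1 * C2 * C3 * C4 * C5 with hK
  have hK1 : C1 ≤ K ∧ C2 ≤ K ∧ C3 ≤ K ∧ C4 ≤ K ∧ C5 ≤ K ∧ 1 ≤ K := by
    have a12 : 1 ≤ C1 * C2 := one_le_mul_of_one_le_of_one_le h1C1 h1C2
    have a123 : 1 ≤ C1 * C2 * C3 := one_le_mul_of_one_le_of_one_le a12 h1C3
    have a1234 : 1 ≤ C1 * C2 * C3 * C4 := one_le_mul_of_one_le_of_one_le a123 h1C4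
    have b1 : C1 * C2 * C3 * C4 ≤ K := le_mul_of_one_le_right (by linarith) h1C5
    have b2 : C1 * C2 * C3 ≤ C1 * C2 * C3 * C4 := le_mul_of_one_le_right (by linarith) h1C4
    have b3 : C1 * C2 ≤ C1 * C2 * C3 := le_mul_of_one_le_right (by linarith) h1C3
    have b4 : C1 ≤ C1 * C2 := le_mul_of_one_le_right (by linarith) h1C2
    have b5 : C2 ≤ C1 * C2 := le_mul_of_one_le_left (by linarith) h1C1
    have b6 : C3 ≤ C1 * C2 * C3 := le_mul_of_one_le_left (by linarith) a12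
    have b7 : C4 ≤ C1 * C2 * C3 * C4 := le_mul_of_one_le_left (by linarith) a123
    have b8 : C5 ≤ K := le_mul_of_one_le_left (by linarith) a1234
    refine ⟨by linarith, by linarith, by linarith, by linarith, b8, by linarith⟩
  obtain ⟨k1, k2, k3, k4, k5, k6⟩ := hK1
  have hK0 : 0 ≤ K := by linarith
  refine ⟨(Q.N).factorial * K ^ Q.N, ?_, ?_⟩
  · have : (1 : ℝ) ≤ (Q.N).factorial := by exact_mod_cast Nat.factorial_pos _
    exact one_le_mul_of_one_le_of_one_le this (one_le_pow₀ k6)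
  intro u v s E β hs hE hβ hu hv hℓu hℓv
  have hE0 : 0 < E := by linarith
  set g : (Fin Q.c ⊕ ((Fin Q.a ⊕ Fin Q.b) ⊕ Fin Q.b)) → ℝ :=
    fun c => ∏ i ∈ Finset.univ.filter (fun i => Q.col i = c), β i with hg
  set sc : (Fin Q.c ⊕ ((Fin Q.a ⊕ Fin Q.b) ⊕ Fin Q.b)) → ℂ :=
    Sum.elim (fun _ => 1) (fun _ => (s : ℂ)) with hsc
  have hscne : ∀ r, sc r ≠ 0 := by
    intro r
    rcases r with r | r
    · simp [hsc]
    · simp only [hsc, Sum.elim_inr]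
      exact_mod_cast hs.ne'
  set M : Matrix (Fin Q.c ⊕ ((Fin Q.a ⊕ Fin Q.b) ⊕ Fin Q.b))
    (Fin Q.c ⊕ ((Fin Q.a ⊕ Fin Q.b) ⊕ Fin Q.b)) ℂ :=
    Q.eY.toMatrix (Q.S.rowsΦ Q.eX A b u v) with hM
  set M' : Matrix (Fin Q.c ⊕ ((Fin Q.a ⊕ Fin Q.b) ⊕ Fin Q.b))
    (Fin Q.c ⊕ ((Fin Q.a ⊕ Fin Q.b) ⊕ Fin Q.b)) ℂ :=
    Matrix.of fun c r => M c r / sc r with hM'
  have hdet : M.det = (∏ r, sc r) * M'.det := by
    rw [← Matrix.det_mul_row]
    congr 1
    ext c r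
    rw [Matrix.of_apply, hM', Matrix.of_apply, mul_div_cancel₀ _ (hscne r)]
  have hscprod : ‖∏ r, sc r‖ = s ^ (Q.a + Q.b + Q.b) := by
    rw [Fintype.prod_sum_type]
    simp only [hsc, Sum.elim_inl, Sum.elim_inr, Finset.prod_const_one, one_mul, Finset.prod_const,
      Finset.card_univ, norm_pow, Fintype.card_sum, Fintype.card_fin, Complex.norm_real,
      Real.norm_of_nonneg hs.le]
  have hent : ∀ c r, ‖M' c r‖ ≤ K * E * g c := by
    intro c r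
    by_cases hc : ∃ i, Q.col i = c
    · obtain ⟨i, rfl⟩ := hc
      have hgc : g (Q.col i) = β i := by
        simp only [hg]
        rw [Q.filter_col i, Finset.prod_singleton]
      rw [hgc]
      have hKE : 0 ≤ K * E * β i := mul_nonneg (mul_nonneg hK0 hE0.le) (hβ i)
      rcases r with r | r | r
      · have : M' (Q.col i) (Sum.inl r) = 0 := by
          rw [hM', Matrix.of_apply, hM, Basis.toMatrix_apply, Sys.rowsΦ, Sum.elim_inl, Q.repr_col,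
            Q.mem_I.mp (hA r) i, zero_div]
        rw [this, norm_zero]
        exact hKE
      · have : M' (Q.col i) (Sum.inr (Sum.inl r)) = Q.ℓ i u * Q.evX i (Q.eX r) / s := by
          rw [hM', Matrix.of_apply, hM, Basis.toMatrix_apply, Sys.rowsΦ, Sum.elim_inr,
            Sum.elim_inl, Q.repr_col, Q.mul, hsc, Sum.elim_inr]
        rw [this, norm_div, norm_mul, Complex.norm_real, Real.norm_of_nonneg hs.le, div_le_iff₀ hs]
        calc ‖Q.ℓ i u‖ * ‖Q.evX i (Q.eX r)‖ ≤ (s * β i) * K :=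
              mul_le_mul (hℓu i) ((hC4 (i, r)).trans k4) (norm_nonneg _)
                (mul_nonneg hs.le (hβ i))
          _ = K * 1 * β i * s := by ring
          _ ≤ K * E * β i * s := by
              apply mul_le_mul_of_nonneg_right _ hs.le
              apply mul_le_mul_of_nonneg_right _ (hβ i)
              exact mul_le_mul_of_nonneg_left hE hK0
      · have : M' (Q.col i) (Sum.inr (Sum.inr r)) = Q.ℓ i v * Q.evX i (b r) / s := by
          rw [hM', Matrix.of_apply, hM, Basis.toMatrix_apply, Sys.rowsΦ, Sum.elim_inr,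
            Sum.elim_inr, Q.repr_col, Q.mul, hsc, Sum.elim_inr]
        rw [this, norm_div, norm_mul, Complex.norm_real, Real.norm_of_nonneg hs.le, div_le_iff₀ hs]
        calc ‖Q.ℓ i v‖ * ‖Q.evX i (b r)‖ ≤ (s * E * β i) * K :=
              mul_le_mul (hℓv i) ((hC5 (i, r)).trans k5) (norm_nonneg _)
                (mul_nonneg (mul_nonneg hs.le hE0.le) (hβ i))
          _ = K * E * β i * s := by ring
    · have hgc : g c = 1 := by
        simp only [hg]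
        apply Finset.prod_eq_one
        intro i hi
        exact absurd ⟨i, (Finset.mem_filter.mp hi).2⟩ hc
      rw [hgc, mul_one]
      rcases r with r | r | r
      · have : M' c (Sum.inl r) = Q.eY.repr (A r) c := by
          rw [hM', Matrix.of_apply, hM, Basis.toMatrix_apply, Sys.rowsΦ, Sum.elim_inl, hsc,
            Sum.elim_inl, div_one]
        rw [this]
        calc _ ≤ K := (hC1 (c, r)).trans k1
          _ ≤ K * E := le_mul_of_one_le_right hK0 hE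
      · have : M' c (Sum.inr (Sum.inl r)) = Q.eY.repr (Q.S.mX u (Q.eX r)) c / s := by
          rw [hM', Matrix.of_apply, hM, Basis.toMatrix_apply, Sys.rowsΦ, Sum.elim_inr,
            Sum.elim_inl, hsc, Sum.elim_inr]
        rw [this, norm_div, Complex.norm_real, Real.norm_of_nonneg hs.le, div_le_iff₀ hs]
        calc _ ≤ C2 * ‖u‖ := hC2 (c, r) u
          _ ≤ K * s := mul_le_mul k2 hu (norm_nonneg _) hK0
          _ ≤ K * E * s := mul_le_mul_of_nonneg_right (le_mul_of_one_le_right hK0 hE) hs.le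
      · have : M' c (Sum.inr (Sum.inr r)) = Q.eY.repr (Q.S.mX v (b r)) c / s := by
          rw [hM', Matrix.of_apply, hM, Basis.toMatrix_apply, Sys.rowsΦ, Sum.elim_inr,
            Sum.elim_inr, hsc, Sum.elim_inr]
        rw [this, norm_div, Complex.norm_real, Real.norm_of_nonneg hs.le, div_le_iff₀ hs]
        calc _ ≤ C3 * ‖v‖ := hC3 (c, r) v
          _ ≤ K * (s * E) := mul_le_mul k3 hv (norm_nonneg _) hK0
          _ = K * E * s := by ring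
  have hb := norm_det_le M' _ hent
  have hprod : ∏ c, K * E * g c = (K * E) ^ Q.N * ∏ i, β i := by
    rw [Finset.prod_mul_distrib, Finset.prod_const, Finset.card_univ, Q.prod_col β]
    rfl
  rw [hprod] at hb
  have hfin : Q.Φ A b u v = M.det := by
    unfold Φ Sys.Φ
    rw [Basis.det_apply]
  rw [hfin, hdet, norm_mul, hscprod]
  calc s ^ (Q.a + Q.b + Q.b) * ‖M'.det‖
      ≤ s ^ (Q.a + Q.b + Q.b) * ((Q.N).factorial * ((K * E) ^ Q.N * ∏ i, β i)) :=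
        mul_le_mul_of_nonneg_left hb (pow_nonneg hs.le _)
    _ = _ := by rw [mul_pow]; ring

end Frame

end Pool.Agent.W601.SM
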