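import Pool.Agent.W601.SM.Fun

/-!
The bound for the auxiliary function.
-/

set_option autoImplicit false

namespace Pool.Agent.W601.SM

open Matrix Module

namespace Frame

variable {m q : ℕ} {L X Y : Type*} [AddCommGroup L] [Module ℂ L] [AddCommGroup X]
    [Module ℂ X] [AddCommGroup Y] [Module ℂ Y] (Q : Frame m q L X Y)

theorem lin_cont (φ : (Fin m → ℂ) →ₗ[ℂ] ℂ) : Continuous φ :=
  (LinearMap.toContinuousLinearMap φ).continuous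

theorem ψ_cont (b : Fin Q.b → X) : Continuous (Q.ψ b) := by
  have h1 : Q.ψ b = fun u => (Q.eX.toMatrix (Q.S.rowsψ Q.eL b u)).det := by
    funext u
    unfold ψ Sys.ψ
    rw [Basis.det_apply]
  rw [h1]
  refine Continuous.matrix_det (continuous_matrix fun i j => ?_)
  rcases j with s | t
  · exact lin_cont ((Q.eX.coord i) ∘ₗ (Q.S.mL.flip (Q.eL s)))
  · exact (continuous_const : Continuous fun _ : Fin m → ℂ => Q.eX.repr (b t) i)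

theorem ψ_lower : ∃ (T : Finset (Fin Q.b → X)) (c : ℝ), 0 < c ∧ ∀ u : Fin m → ℂ, u ≠ 0 →
    ∃ b ∈ T, c * ‖u‖ ^ Q.a ≤ ‖Q.ψ b u‖ := by
  classical
  have hne : ∀ u ∈ Metric.sphere (0 : Fin m → ℂ) 1, u ≠ 0 := by
    intro u hu h0
    rw [h0] at hu
    simp at hu
  set ch : (Fin m → ℂ) → (Fin Q.b → X) := fun u =>
    if hu : u ≠ 0 then (Q.exists_b hu).choose else fun _ => 0 with hch
  have hchne : ∀ u, u ≠ 0 → Q.ψ (ch u) u ≠ 0 := by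
    intro u hu
    simp only [hch, dif_pos hu]
    exact (Q.exists_b hu).choose_spec
  obtain ⟨t, ht, hcov⟩ := (isCompact_sphere (0 : Fin m → ℂ) 1).elim_nhds_subcover
    (fun u => {w | ‖Q.ψ (ch u) u‖ / 2 < ‖Q.ψ (ch u) w‖}) (by
      intro u hu
      apply (Q.ψ_cont (ch u)).norm.continuousAt.eventually
      apply lt_mem_nhds
      have := norm_pos_iff.mpr (hchne u (hne u hu))
      linarith)
  have hmin : ∃ c : ℝ, 0 < c ∧ ∀ u ∈ t, c ≤ ‖Q.ψ (ch u) u‖ / 2 := by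
    rcases t.eq_empty_or_nonempty with h | h
    · exact ⟨1, one_pos, by simp [h]⟩
    · obtain ⟨u0, hu0, hmin⟩ := t.exists_min_image (fun u => ‖Q.ψ (ch u) u‖ / 2) h
      refine ⟨‖Q.ψ (ch u0) u0‖ / 2, ?_, hmin⟩
      have := norm_pos_iff.mpr (hchne u0 (hne u0 (ht u0 hu0)))
      linarith
  obtain ⟨c, hc, hcmin⟩ := hmin
  refine ⟨t.image ch, c, hc, fun u hu => ?_⟩
  have hun : ‖u‖ ≠ 0 := norm_ne_zero_iff.mpr hu
  set w : Fin m → ℂ := ((‖u‖⁻¹ : ℝ) : ℂ) • u with hw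
  have hwS : w ∈ Metric.sphere (0 : Fin m → ℂ) 1 := by
    rw [mem_sphere_zero_iff_norm, hw, norm_smul, Complex.norm_real, norm_inv, norm_norm,
      inv_mul_cancel₀ hun]
  have huw : u = ((‖u‖ : ℝ) : ℂ) • w := by
    rw [hw, smul_smul, ← Complex.ofReal_mul, mul_inv_cancel₀ hun, Complex.ofReal_one, one_smul]
  obtain ⟨u0, hu0, hu0w⟩ := Set.mem_iUnion₂.mp (hcov hwS)
  refine ⟨ch u0, Finset.mem_image_of_mem _ hu0, ?_⟩
  have h1 : c ≤ ‖Q.ψ (ch u0) w‖ := (hcmin u0 hu0).trans (le_of_lt hu0w)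
  have h2 : ‖Q.ψ (ch u0) u‖ = ‖Q.ψ (ch u0) w‖ * ‖u‖ ^ Q.a := by
    conv_lhs => rw [huw, Q.ψ_smul, norm_mul, norm_pow, Complex.norm_real, norm_norm]
  rw [h2]
  exact mul_le_mul_of_nonneg_right h1 (pow_nonneg (norm_nonneg _) _)

/-- The pointwise bound. -/
theorem G_bound {A : Fin Q.c → Y} (hA : ∀ a, A a ∈ Q.I) :
    ∃ C : ℝ, 1 ≤ C ∧ ∀ (u v : Fin m → ℂ) (σ E : ℝ), u ≠ 0 → 0 < σ → 1 ≤ E →
      (∀ i, ‖Q.ℓ i u‖ ≤ σ) → (∃ i, ‖Q.ℓ i u‖ = σ) → (∀ i, ‖Q.ℓ i v‖ ≤ E * ‖Q.ℓ i u‖) →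
      ‖Q.G A u v‖ * σ ^ q ≤ C * E ^ Q.N * σ ^ (Q.b + Q.b) * ∏ i, ‖Q.ℓ i u‖ := by
  classical
  obtain ⟨T, c, hc, hT⟩ := Q.ψ_lower
  choose CΦ hCΦ1 hCΦ using fun b => Q.Φ_bound hA b
  obtain ⟨C1, hC11, hC1⟩ := exists_max (ι := T) fun b => CΦ b
  obtain ⟨C2, hC21, hC2⟩ := lin_bound' Q.ℓ
  -- the points span
  set TT : (Fin m → ℂ) →ₗ[ℂ] (Fin q → ℂ) := LinearMap.pi Q.ℓ with hTT
  have hker : LinearMap.ker TT = ⊥ := by
    rw [LinearMap.ker_eq_bot']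
    intro w hw
    exact Q.span w fun i => congrFun hw i
  obtain ⟨K, _, hK⟩ := LinearMap.exists_antilipschitzWith TT hker
  have hK' : ∀ (w : Fin m → ℂ) (σ : ℝ), 0 ≤ σ → (∀ i, ‖Q.ℓ i w‖ ≤ σ) → ‖w‖ ≤ (K + 1) * σ := by
    intro w σ hσ h
    have h1 : ‖w‖ ≤ K * ‖TT w‖ := by
      have := hK.le_mul_dist w 0
      rwa [map_zero, dist_zero_right, dist_zero_right] at this
    have h2 : ‖TT w‖ ≤ σ := (pi_norm_le_iff_of_nonneg hσ).mpr h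
    have hK0 : (0 : ℝ) ≤ K := K.2
    calc ‖w‖ ≤ K * σ := h1.trans (mul_le_mul_of_nonneg_left h2 hK0)
      _ ≤ (K + 1) * σ := by nlinarith
  set K0 : ℝ := K + 1 with hK0d
  have hK01 : 1 ≤ K0 := by have : (0 : ℝ) ≤ K := K.2; rw [hK0d]; linarith
  have hK00 : 0 < K0 := by linarith
  -- the constant
  refine ⟨1 + (C1 / c) * (C2 * K0) ^ Q.a * K0 ^ (Q.b + Q.b), ?_, ?_⟩
  · have : 0 ≤ (C1 / c) * (C2 * K0) ^ Q.a * K0 ^ (Q.b + Q.b) := by positivity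
    linarith
  intro u v σ E hu hσ hE hle hex hv
  have hE0 : 0 < E := by linarith
  obtain ⟨b, hbT, hb⟩ := hT u hu
  set s : ℝ := K0 * σ with hs
  have hs0 : 0 < s := mul_pos hK00 hσ
  have hun : ‖u‖ ≤ s := hK' u σ hσ.le hle
  have hvn : ‖v‖ ≤ s * E := by
    have h1 := hK' v (E * σ) (by positivity) fun i => (hv i).trans
      (mul_le_mul_of_nonneg_left (hle i) hE0.le)
    calc ‖v‖ ≤ K0 * (E * σ) := h1
      _ = s * E := by rw [hs]; ring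
  set β : Fin q → ℝ := fun i => ‖Q.ℓ i u‖ / σ with hβ
  have hβ0 : ∀ i, 0 ≤ β i := fun i => div_nonneg (norm_nonneg _) hσ.le
  have hsβ : ∀ i, s * β i = K0 * ‖Q.ℓ i u‖ := by
    intro i
    rw [hs, hβ]
    field_simp
  have h1 := hCΦ b u v s E β hs0 hE hβ0 hun hvn
    (fun i => by
      rw [hsβ i]
      exact le_mul_of_one_le_left (norm_nonneg _) hK01)
    (fun i => by
      have h3 : s * E * β i = K0 * (E * ‖Q.ℓ i u‖) := by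
        rw [mul_right_comm, hsβ i]; ring
      rw [h3]
      exact (hv i).trans (le_mul_of_one_le_left (by positivity) hK01))
  have hprodβ : ∏ i, β i = (∏ i, ‖Q.ℓ i u‖) / σ ^ q := by
    rw [hβ, Finset.prod_div_distrib, Finset.prod_const, Finset.card_univ, Fintype.card_fin]
  have hul : s / (C2 * K0) ≤ ‖u‖ := by
    obtain ⟨i, hi⟩ := hex
    have h3 : σ ≤ C2 * ‖u‖ := hi ▸ hC2 i u
    rw [hs, div_le_iff₀ (by positivity)]
    calc K0 * σ ≤ K0 * (C2 * ‖u‖) := mul_le_mul_of_nonneg_left h3 hK00.le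
      _ = ‖u‖ * (C2 * K0) := by ring
  have hψ : c * (s / (C2 * K0)) ^ Q.a ≤ ‖Q.ψ b u‖ :=
    (mul_le_mul_of_nonneg_left (pow_le_pow_left₀ (by positivity) hul _) hc.le).trans hb
  have hψpos : 0 < c * (s / (C2 * K0)) ^ Q.a := by positivity
  have hG : ‖Q.G A u v‖ * ‖Q.ψ b u‖ = ‖Q.Φ A b u v‖ := by
    rw [← norm_mul, Q.G_mul A hu v b]
  have h4 : ‖Q.G A u v‖ * (c * (s / (C2 * K0)) ^ Q.a)
      ≤ C1 * E ^ Q.N * s ^ (Q.a + Q.b + Q.b) * ((∏ i, ‖Q.ℓ i u‖) / σ ^ q) := by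
    calc _ ≤ ‖Q.G A u v‖ * ‖Q.ψ b u‖ := mul_le_mul_of_nonneg_left hψ (norm_nonneg _)
      _ ≤ CΦ b * E ^ Q.N * s ^ (Q.a + Q.b + Q.b) * ∏ i, β i := hG ▸ h1
      _ ≤ C1 * E ^ Q.N * s ^ (Q.a + Q.b + Q.b) * ∏ i, β i := by
          have := hC1 ⟨b, hbT⟩
          have h5 : 0 ≤ ∏ i, β i := Finset.prod_nonneg fun i _ => hβ0 i
          gcongr
      _ = _ := by rw [hprodβ]
  have hσq : 0 < σ ^ q := pow_pos hσ q
  set Pr : ℝ := ∏ i, ‖Q.ℓ i u‖ with hPr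
  have hPr0 : 0 ≤ Pr := Finset.prod_nonneg fun i _ => norm_nonneg _
  have h6 : ‖Q.G A u v‖ * σ ^ q ≤ ((C1 / c) * (C2 * K0) ^ Q.a * K0 ^ (Q.b + Q.b))
      * E ^ Q.N * σ ^ (Q.b + Q.b) * Pr := by
    have h7 : ‖Q.G A u v‖ ≤ C1 * E ^ Q.N * s ^ (Q.a + Q.b + Q.b) * (Pr / σ ^ q)
        / (c * (s / (C2 * K0)) ^ Q.a) := by
      rw [le_div_iff₀ hψpos]; exact h4
    have h8 : C1 * E ^ Q.N * s ^ (Q.a + Q.b + Q.b) * (Pr / σ ^ q)
        / (c * (s / (C2 * K0)) ^ Q.a) * σ ^ q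
        = ((C1 / c) * (C2 * K0) ^ Q.a * K0 ^ (Q.b + Q.b)) * E ^ Q.N * σ ^ (Q.b + Q.b) * Pr := by
      have hsne : s ^ Q.a ≠ 0 := (pow_pos hs0 _).ne'
      have e1 : s ^ (Q.a + Q.b + Q.b) = s ^ Q.a * (K0 ^ (Q.b + Q.b) * σ ^ (Q.b + Q.b)) := by
        rw [← mul_pow, ← hs]; ring
      rw [e1, div_pow]
      field_simp
    calc _ ≤ _ := mul_le_mul_of_nonneg_right h7 hσq.le
      _ = _ := h8
  refine h6.trans ?_
  have h9 : 0 ≤ E ^ Q.N * σ ^ (Q.b + Q.b) * Pr := by positivity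
  nlinarith

end Frame

end Pool.Agent.W601.SM
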