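import Pool.Agent.W601.SM.Fun

/-!
Spaces of forms.
-/

set_option autoImplicit false

namespace Pool.Agent.W601.SM

open MvPolynomial Module

/-- the forms of degree `d` in `n + 1` variables -/
abbrev Rn (n d : ℕ) : Submodule ℂ (MvPolynomial (Fin (n + 1)) ℂ) :=
  homogeneousSubmodule (Fin (n + 1)) ℂ d

/-- the linear form with given coefficients -/
noncomputable def lin {n : ℕ} (u : Fin (n + 1) → ℂ) : MvPolynomial (Fin (n + 1)) ℂ :=
  ∑ i, C (u i) * X i

variable {n : ℕ}

theorem lin_hom (u : Fin (n + 1) → ℂ) : (lin u).IsHomogeneous 1 := by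
  unfold lin
  exact IsHomogeneous.sum _ _ _ fun i _ => by
    simpa using (isHomogeneous_C (Fin (n + 1)) (u i)).mul (isHomogeneous_X ℂ i)

theorem coeff_lin (u : Fin (n + 1) → ℂ) (i : Fin (n + 1)) :
    (lin u).coeff (Finsupp.single i 1) = u i := by
  classical
  unfold lin
  rw [coeff_sum, Finset.sum_eq_single i]
  · simp
  · intro b _ hb
    rw [coeff_C_mul, coeff_X, if_neg, mul_zero]
    intro h
    exact hb (Finsupp.single_left_injective one_ne_zero h)
  · simp

theorem lin_ne {u : Fin (n + 1) → ℂ} (h : u ≠ 0) : lin u ≠ 0 := by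
  intro h0
  apply h
  funext i
  rw [← coeff_lin u i, h0]
  simp

theorem lin_prime {u : Fin (n + 1) → ℂ} (h : u ≠ 0) : Prime (lin u) := by
  apply Irreducible.prime
  apply irreducible_of_totalDegree_eq_one ((lin_hom u).totalDegree (lin_ne h))
  intro x hx
  obtain ⟨i, hi⟩ : ∃ i, u i ≠ 0 := by
    by_contra hc
    push Not at hc
    exact h (funext hc)
  have h1 := hx (Finsupp.single i 1)
  rw [coeff_lin] at h1
  rw [isUnit_iff_ne_zero]
  rintro rfl
  exact hi (zero_dvd_iff.mp h1)

theorem eval_lin (u a : Fin (n + 1) → ℂ) : eval a (lin u) = ∑ i, a i * u i := by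
  unfold lin
  simp [mul_comm]

theorem lin_dvd_lin {u v : Fin (n + 1) → ℂ} (hv : v ≠ 0) (h : lin u ∣ lin v) :
    ∃ c : ℂ, v = c • u := by
  obtain ⟨g, hg⟩ := h
  have h0 : lin v ≠ 0 := lin_ne hv
  have hu : lin u ≠ 0 := by rintro h1; rw [h1, zero_mul] at hg; exact h0 hg
  have hg0 : g ≠ 0 := by rintro h1; rw [h1, mul_zero] at hg; exact h0 hg
  have hd := totalDegree_mul_of_isDomain hu hg0
  rw [← hg, (lin_hom v).totalDegree h0, (lin_hom u).totalDegree hu] at hd
  have hd0 : g.totalDegree = 0 := by omega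
  rw [totalDegree_eq_zero_iff_eq_C] at hd0
  refine ⟨coeff 0 g, ?_⟩
  funext i
  rw [Pi.smul_apply, smul_eq_mul, ← coeff_lin v i, hg, hd0, mul_comm, coeff_C_mul, coeff_lin]
  simp

theorem hom_of_mul {u : Fin (n + 1) → ℂ} (hu : u ≠ 0) {g : MvPolynomial (Fin (n + 1)) ℂ} {k : ℕ}
    (h : (lin u * g).IsHomogeneous (k + 1)) : g.IsHomogeneous k := by
  have key : ∀ d, homogeneousComponent (d + 1) (lin u * g)
      = lin u * homogeneousComponent d g := by
    intro d
    conv_lhs => rw [← sum_homogeneousComponent g, Finset.mul_sum, map_sum]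
    have h2 : ∀ e ∈ Finset.range (g.totalDegree + 1),
        homogeneousComponent (d + 1) (lin u * homogeneousComponent e g)
          = if e = d then lin u * homogeneousComponent d g else 0 := by
      intro e _
      have hm : lin u * homogeneousComponent e g ∈ homogeneousSubmodule (Fin (n + 1)) ℂ (e + 1) := by
        have := (lin_hom u).mul (homogeneousComponent_isHomogeneous e g)
        rw [Nat.add_comm 1 e] at this
        exact (mem_homogeneousSubmodule _ _).mpr this
      have h3 := homogeneousComponent_of_mem (m := d + 1) hm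
      rw [h3]
      by_cases hed : e = d
      · subst hed; simp
      · rw [if_neg (by omega), if_neg hed]
    rw [Finset.sum_congr rfl h2, Finset.sum_ite_eq' (Finset.range (g.totalDegree + 1)) d]
    split_ifs with h4
    · rfl
    · rw [homogeneousComponent_eq_zero d g (by rw [Finset.mem_range] at h4; omega), mul_zero]
  have h1 : ∀ d, d ≠ k → homogeneousComponent d g = 0 := by
    intro d hd
    have h2 := key d
    rw [homogeneousComponent_of_mem ((mem_homogeneousSubmodule _ _).mpr h),
      if_neg (by omega)] at h2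
    exact (mul_eq_zero.mp h2.symm).resolve_left (lin_ne hu)
  have h3 : homogeneousComponent k g = g := by
    conv_rhs => rw [← sum_homogeneousComponent g]
    by_cases hk : k ∈ Finset.range (g.totalDegree + 1)
    · rw [Finset.sum_eq_single k]
      · intro b _ hb
        exact h1 b hb
      · intro h4; exact absurd hk h4
    · rw [homogeneousComponent_eq_zero k g (by rw [Finset.mem_range] at hk; omega)]
      symm
      apply Finset.sum_eq_zero
      intro i hi
      exact h1 i (by rintro rfl; exact hk hi)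
  rw [← h3]
  exact homogeneousComponent_isHomogeneous k g

theorem finrank_Rn (s : ℕ) : Module.finrank ℂ (Rn n s) = (n + s).choose n := by
  classical
  unfold Rn
  rw [homogeneousSubmodule_eq_finsupp_supported]
  rw [LinearEquiv.finrank_eq (AddMonoidAlgebra.supportedEquivFinsupp (S := ℂ) (R := ℂ)
    {d : Fin (n + 1) →₀ ℕ | d.degree = s})]
  have hset : {d : Fin (n + 1) →₀ ℕ | d.degree = s} =
      ((Finset.univ : Finset (Fin (n + 1))).finsuppAntidiag s : Set (Fin (n + 1) →₀ ℕ)) := by
    ext d
    simp [Finset.mem_finsuppAntidiag, Finsupp.degree_eq_sum]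
  have hfin : Finite {d : Fin (n + 1) →₀ ℕ | d.degree = s} := by
    rw [hset]; exact Finset.finite_toSet _
  have := Fintype.ofFinite {d : Fin (n + 1) →₀ ℕ | d.degree = s}
  rw [Module.finrank_finsupp_self, ← Nat.card_eq_fintype_card, Nat.card_coe_set_eq, hset,
    Set.ncard_coe_finset, Finset.card_finsuppAntidiag_nat_eq_choose]
  simp only [Finset.card_univ, Fintype.card_fin]
  rw [show n + 1 + s - 1 = n + s by omega]
  exact (Nat.choose_symm_of_eq_add rfl).symm ▸ rfl

instance finite_Rn (s : ℕ) : Module.Finite ℂ (Rn n s) :=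
  Module.Finite.iff_fg.mpr (homogeneousSubmodule_fg (Fin (n + 1)) ℂ s)

/-- multiplication by linear forms -/
noncomputable def mulL (d : ℕ) : (Fin (n + 1) → ℂ) →ₗ[ℂ] Rn n d →ₗ[ℂ] Rn n (d + 1) :=
  LinearMap.mk₂ ℂ (fun u P => ⟨lin u * P.1, by
      have := (lin_hom u).mul ((mem_homogeneousSubmodule _ _).mp P.2)
      rw [Nat.add_comm 1 d] at this
      exact (mem_homogeneousSubmodule _ _).mpr this⟩)
    (fun u v P => by
      apply Subtype.ext
      simp only [lin, Pi.add_apply, map_add, add_mul, Finset.sum_add_distrib,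
        Submodule.coe_add])
    (fun c u P => by
      apply Subtype.ext
      simp only [lin, Pi.smul_apply, smul_eq_mul, map_mul, SetLike.val_smul, smul_eq_C_mul]
      rw [← mul_assoc, Finset.mul_sum]
      congr 1
      exact Finset.sum_congr rfl fun i _ => by ring)
    (fun u P P' => by
      apply Subtype.ext
      simp only [Submodule.coe_add, mul_add])
    (fun c u P => by
      apply Subtype.ext
      simp only [SetLike.val_smul, smul_eq_C_mul]
      ring)

theorem mulL_coe {d : ℕ} (u : Fin (n + 1) → ℂ) (P : Rn n d) :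
    ((mulL d u P : Rn n (d + 1)) : MvPolynomial (Fin (n + 1)) ℂ) = lin u * P.1 := rfl

theorem mulL_inj {d : ℕ} {u : Fin (n + 1) → ℂ} (hu : u ≠ 0) :
    Function.Injective (mulL (n := n) d u) := by
  intro P P' h
  have h1 := congrArg Subtype.val h
  rw [mulL_coe, mulL_coe] at h1
  exact Subtype.ext (mul_left_cancel₀ (lin_ne hu) h1)

/-- the spaces of forms of degrees `d`, `d + 1`, `d + 2` -/
noncomputable def polySys (n d : ℕ) :
    Sys ℂ (Fin (n + 1) → ℂ) (Rn n d) (Rn n (d + 1)) (Rn n (d + 2)) where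
  mL := mulL d
  mX := mulL (d + 1)
  comm u v c := by
    apply Subtype.ext
    rw [mulL_coe, mulL_coe, mulL_coe, mulL_coe]
    ring
  injL _ hu := mulL_inj hu
  injX _ hu := mulL_inj hu
  prime u v hv hu b x h := by
    have h1 := congrArg Subtype.val h
    rw [mulL_coe, mulL_coe] at h1
    have hv0 : v ≠ 0 := by
      intro h0
      apply hv 0
      rw [h0, zero_smul]
    have h2 : lin u ∣ lin v * b.1 := ⟨x.1, h1⟩
    rcases (lin_prime hu).dvd_or_dvd h2 with h3 | h3
    · obtain ⟨c, hc⟩ := lin_dvd_lin hv0 h3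
      exact absurd hc (hv c)
    · obtain ⟨g, hg⟩ := h3
      have h4 : g.IsHomogeneous d := by
        apply hom_of_mul hu
        rw [← hg]
        exact (mem_homogeneousSubmodule _ _).mp b.2
      exact ⟨⟨g, (mem_homogeneousSubmodule _ _).mpr h4⟩, Subtype.ext hg⟩

/-- evaluation at a point -/
noncomputable def ev (d : ℕ) (a : Fin (n + 1) → ℂ) : Rn n d →ₗ[ℂ] ℂ :=
  (aeval a : MvPolynomial (Fin (n + 1)) ℂ →ₐ[ℂ] ℂ).toLinearMap ∘ₗ (Rn n d).subtype

theorem ev_apply (d : ℕ) (a : Fin (n + 1) → ℂ) (P : Rn n d) : ev d a P = eval a P.1 := by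
  unfold ev
  simp [aeval_eq_eval]

/-- the linear form on the space of the coefficients -/
noncomputable def ll (a : Fin (n + 1) → ℂ) : (Fin (n + 1) → ℂ) →ₗ[ℂ] ℂ :=
  Fintype.linearCombination ℂ a

theorem ll_apply (a w : Fin (n + 1) → ℂ) : ll a w = ∑ i, a i * w i := by
  unfold ll
  rw [Fintype.linearCombination_apply]
  exact Finset.sum_congr rfl fun i _ => by rw [smul_eq_mul, mul_comm]

end Pool.Agent.W601.SM
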